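import Pool.Agent.helper61.SP.SpecDX

/-!
# Project sp, module DUP: duality
-/

namespace TP

open DP MeasureTheory

theorem DUP : DUP_stmt := by
  intro a b d e hab hde
  have hP : IsProbabilityMeasure P1 := by unfold P1; infer_instance
  have h1 : pv true a b d e = pv false a b d e := (TSX.2 false a b d e).2
  rw [h1]
  have hm : MeasurableSet (Ev fun c => hcross c true a b d e) := (RLM true a b d e).1.measurableSet
  have h2 : (Ev fun c => vcross c false a b d e) = (Ev fun c => hcross c true a b d e)ᶜ := by
    ext ω
    constructor
    · rintro ⟨u, v, hu, hv, h⟩ ⟨u', v', hu', hv', h'⟩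
      obtain ⟨z, hz, hz'⟩ := DP.Asm_RC a b d e {w | w ∈ rect a b d e ∧ col ω w = true}
        {w | w ∈ rect a b d e ∧ col ω w = false} (fun w hw => hw.1) (fun w hw => hw.1) u' v' u v
        hu' hv' hu hv h' h
      have := hz.2.symm.trans hz'.2
      exact Bool.noConfusion this
    · intro h
      rcases DP.Asm_HX (col ω) true a b d e hab hde with h' | h'
      · exact absurd h' h
      · exact h'
  unfold ph pv Pr
  rw [h2]
  exact probReal_add_probReal_compl hm

end TP
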