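import Pool.Agent.helper61.SP.SpecDX

/-!
# Project sp, module DX4: many scales
-/

namespace TP

open DP MeasureTheory

theorem DX4_indep {F G : Set (V → Bool)} {A A' : Set V} (hd : Disjoint A A') (hF : DP.Loc F A)
    (hG : DP.Loc G A') : Pr (F ∩ G) = Pr F * Pr G := by
  have e := DP.Bindep (fun _ => 0) F Set.univ G Set.univ A A' hd hF (DP.Loc.univ _) hG
    (DP.Loc.univ _)
  rw [Set.univ_inter, DP.Bmarg _ _ _ (hF.inter hG), DP.Bmarg _ _ _ hF, DP.Bmarg _ _ _ hG] at e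
  exact e

/-- No half circle at the first `J` scales. -/
def DX4_E (β : V → V) (s z ℓ : ℤ) (J : ℕ) : Set (V → Bool) :=
  {ω | ∀ j < J, ¬ HG (kap β ω) s z (4 ^ j * ℓ)}

theorem DX4_succ (β : V → V) (s z ℓ : ℤ) (J : ℕ) :
    DX4_E β s z ℓ (J + 1) = DX4_E β s z ℓ J ∩ {ω | HG (kap β ω) s z (4 ^ J * ℓ)}ᶜ := by
  ext ω
  constructor
  · intro h
    exact ⟨fun j hj => h j (by omega), h J (by omega)⟩
  · rintro ⟨h1, h2⟩ j hj
    rcases Nat.lt_succ_iff_lt_or_eq.1 hj with h | h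
    · exact h1 j h
    · rw [h]
      exact h2

theorem DX4 (h3 : DX3_stmt) : DX4_stmt := by
  intro β hβ
  have : IsProbabilityMeasure P1 := by unfold P1; infer_instance
  obtain ⟨hloc, c, hc, hc1, L, hL⟩ := h3 β hβ
  refine ⟨c, hc, hc1, L, ?_⟩
  intro s z ℓ J hLℓ hs hsℓ hz
  have hpow : ∀ j : ℕ, (1 : ℤ) ≤ 4 ^ j := fun j => one_le_pow₀ (by norm_num)
  have hsc : ∀ j : ℕ, ℓ ≤ 4 ^ j * ℓ := fun j => by nlinarith [hpow j]
  have key : DP.Loc (DX4_E β s z ℓ J) (β '' {v | (sd (z, 0) v : ℤ) < 4 ^ J * ℓ}) ∧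
      Pr (DX4_E β s z ℓ J) ≤ (1 - c) ^ J := by
    induction J with
    | zero =>
      have e : DX4_E β s z ℓ 0 = Set.univ := by
        ext ω
        simp [DX4_E]
      rw [e]
      refine ⟨DP.Loc.univ _, ?_⟩
      simp [Pr]
    | succ J ih =>
      obtain ⟨ih1, ih2⟩ := ih
      have hl := (hloc s z (4 ^ J * ℓ) hs (by have := hsc J; omega) hz).1
      have hd : Disjoint (β '' {v | (sd (z, 0) v : ℤ) < 4 ^ J * ℓ})
          (β '' {v | 4 ^ J * ℓ < sd (z, 0) v ∧ (sd (z, 0) v : ℤ) ≤ 3 * (4 ^ J * ℓ)}) := by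
        rw [Set.disjoint_left]
        rintro _ ⟨v, hv, rfl⟩ ⟨w, ⟨hw1, hw2⟩, hvw⟩
        have hv' : (sd (z, 0) v : ℤ) < 4 ^ J * ℓ := hv
        by_cases he : w = v
        · rw [he] at hw1
          omega
        · have h1 := hβ.1 w v hvw he
          have h2 : sd (z, 0) w ≤ sd (z, 0) v + 1 := h1.sd_le (z, 0)
          omega
      rw [DX4_succ]
      constructor
      · refine (ih1.inter hl.compl).mono ?_
        rintro x (⟨v, hv, rfl⟩ | ⟨v, ⟨hv1, hv2⟩, rfl⟩)
        · refine ⟨v, ?_, rfl⟩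
          have hv' : (sd (z, 0) v : ℤ) < 4 ^ J * ℓ := hv
          show (sd (z, 0) v : ℤ) < 4 ^ (J + 1) * ℓ
          rw [pow_succ]
          have := hsc J
          nlinarith
        · refine ⟨v, ?_, rfl⟩
          show (sd (z, 0) v : ℤ) < 4 ^ (J + 1) * ℓ
          rw [pow_succ]
          have := hsc J
          nlinarith
      · rw [DX4_indep hd ih1 hl.compl, pow_succ]
        have h1 : Pr {ω | HG (kap β ω) s z (4 ^ J * ℓ)}ᶜ = 1 - Pr {ω | HG (kap β ω) s z (4 ^ J * ℓ)} := by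
          unfold Pr
          exact probReal_compl_eq_one_sub (DP.Loc.measurableSet hl)
        have h2 := hL s z (4 ^ J * ℓ) (hLℓ.trans (hsc J)) hs (by have := hsc J; omega) hz
        rw [h1]
        have h4 : Pr {ω | HG (kap β ω) s z (4 ^ J * ℓ)} ≤ 1 := by
          unfold Pr
          exact measureReal_le_one
        exact mul_le_mul ih2 (by linarith) (by linarith) (pow_nonneg (by linarith) _)
  exact key.2

end TP
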