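import Pool.Agent.helper61.SP.DX1
import Pool.Agent.helper78.SP.DX2
import Pool.Agent.helper63.SP.DX3
import Pool.Agent.helper61.SP.DX4
import Pool.Agent.helper65.SP.DX5
import Pool.Agent.helper95.SP.DX6
import Pool.Agent.helper27.SP.DX7
import Pool.Agent.helper61.SP.DUP
import Pool.Agent.helper85.SP.DX8
import Pool.Agent.helper33.SP.DX9
import Pool.Agent.helper99.SP.DXF
import Pool.Agent.helper4.SP.UJ4

/-!
# Project sp, piece D4: the spectral sample does not come close to the boundary of the square
-/

namespace TP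

theorem D4 : D4_stmt :=
  DXF (DX8 (DX7 (DX5 DX1 DX2 (DX4 DX3)) DX6) DUP) DX9 UJ4

end TP
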