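import Pool.Agent.helper61.SP.SpecDX

/-!
# Project sp, module DX1: a half circle gives an extension
-/

namespace TP

open DP MeasureTheory

/-- Not in the block below and around `(z, 0)`. -/
def DX1_far (z ℓ : ℤ) (v : V) : Prop := z + ℓ + 1 ≤ v.1 ∨ ℓ + 1 ≤ v.2 ∨ v.1 ≤ z - ℓ - 1

theorem DX1_core {β : V → V} {c : V → Bool} {X K : Set V} {w h s ℓ : ℤ} {z t a₁ q : V}
    (hβ : ∀ v w : V, β v = β w → v ≠ w → Adj v w) (hs : 2 ≤ s) (hℓ : s < ℓ) (hKX : K ⊆ X)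
    (hXR : X ⊆ rect 0 w 0 h) (hzK : z ∈ K) (hz : z.2 = 0) (ht : t.2 = h) (hzt : DP.Con K z t)
    (hXK : ∀ x ∈ X, x ∉ K → ∃ p : V, p.1 = 0 ∧ DP.Con (X \ K) p x)
    (ha₁ : a₁.2 = -s) (ha₁' : z.1 + ℓ + 1 ≤ a₁.1) (hqX : q ∈ X)
    (hq : Conn c true {v | v ∈ rect 0 w (-s) h ∧ DX1_far z.1 ℓ v} a₁ q) : EX β c X K w h s := by
  classical
  set A : Set V := {v | v ∈ rect 0 w (-s) h ∧ DX1_far z.1 ℓ v} with hA
  set W : Set V := {v | v ∈ A ∧ c v = true} with hW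
  set Xb : Set V := {v | ∃ x' ∈ X, β x' = β v} with hXb
  have hXr : ∀ v ∈ X, 0 ≤ v.1 ∧ v.1 ≤ w ∧ 0 ≤ v.2 ∧ v.2 ≤ h := fun v hv => hXR hv
  have hzr := hXr z (hKX hzK)
  have hAr : ∀ v ∈ A, (0 ≤ v.1 ∧ v.1 ≤ w ∧ -s ≤ v.2 ∧ v.2 ≤ h) ∧
      (z.1 + ℓ + 1 ≤ v.1 ∨ ℓ + 1 ≤ v.2 ∨ v.1 ≤ z.1 - ℓ - 1) := fun v hv => hv
  have hq' : DP.Con W a₁ q := hq
  have ha₁W : a₁ ∈ W := DP.Con.mem_left hq'
  have ha₁r := (hAr a₁ ha₁W.1).1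
  have ha₁b : a₁ ∈ Xbᶜ := by
    rintro ⟨x', hx', hb⟩
    have h1 := hXr x' hx'
    by_cases he : x' = a₁
    · rw [he] at h1
      omega
    · have h2 := adj_iff.1 (hβ x' a₁ hb he)
      omega
  have hqb : q ∉ Xbᶜ := fun h1 => h1 ⟨q, hqX, rfl⟩
  obtain ⟨a, b, h1, hbW, hbX, hab⟩ := DP.Con.exit' hq' Xbᶜ ha₁b hqb
  have hbX' : b ∈ Xb := by simpa using hbX
  -- the partner of `b`
  obtain ⟨x', hx'X, hx'b, hx'e⟩ : ∃ x' ∈ X, β x' = β b ∧ (b ∈ X → x' = b) := by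
    by_cases hb : b ∈ X
    · exact ⟨b, hb, rfl, fun _ => rfl⟩
    · obtain ⟨x', h2, h3⟩ := hbX'
      exact ⟨x', h2, h3, fun h4 => absurd h4 hb⟩
  have hx'K : x' ∈ K := by
    by_contra hcon
    obtain ⟨p, hp, hpx⟩ := hXK x' hx'X hcon
    set LR : Set V := ((X \ K) ∪ {b}) ∪ (W ∩ Xbᶜ) ∪ {v | v.2 = -s - 1 ∧ a₁.1 ≤ v.1 ∧ v.1 ≤ w} with hLR
    set TB : Set V := {v | v.1 = z.1 ∧ -s - 1 ≤ v.2 ∧ v.2 ≤ 0} ∪ K with hTB
    have d1 : DP.Con LR p x' := hpx.mono fun v hv => Or.inl (Or.inl (Or.inl hv))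
    have hbLR : b ∈ LR := Or.inl (Or.inl (Or.inr rfl))
    have d2 : DP.Con LR p b := by
      by_cases he : x' = b
      · rw [← he]
        exact d1
      · exact d1.step (hβ x' b hx'b he) hbLR
    have d3 : DP.Con LR a₁ a := h1.mono fun v hv => Or.inl (Or.inr hv)
    have d4 : DP.Con LR p a₁ := (d2.step hab.symm (DP.Con.mem_right d3)).trans d3.symm
    have d5 : DP.Con LR p (a₁.1, -s - 1) := by
      refine d4.step ?_ (Or.inr ⟨rfl, le_rfl, ha₁r.2.1⟩)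
      rw [adj_iff]
      refine ⟨⟨?_, ?_, ?_, ?_⟩, ?_, ?_⟩ <;> dsimp only <;> omega
    have d6 : DP.Con LR p (w, -s - 1) :=
      d5.trans (con_horiz _ _ _ ha₁r.2.1 fun i h2 h3 => Or.inr ⟨rfl, h2, h3⟩)
    have ez : ((z.1, 0) : V) = z := by
      ext
      · rfl
      · exact hz.symm
    have e1 : DP.Con TB (z.1, -s - 1) z := by
      have := con_vert (W := TB) z.1 (-s - 1) 0 (by omega) fun i h2 h3 => Or.inl ⟨rfl, h2, h3⟩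
      rwa [ez] at this
    have e2 : DP.Con TB (z.1, -s - 1) t := e1.trans (hzt.mono fun v hv => Or.inr hv)
    obtain ⟨x, hx1, hx2⟩ := DP.Asm_RC 0 w (-s - 1) h LR TB (by
        rintro v (((hv | hv) | hv) | ⟨k1, k2, k3⟩)
        · have := hXr v hv.1
          show 0 ≤ v.1 ∧ v.1 ≤ w ∧ -s - 1 ≤ v.2 ∧ v.2 ≤ h
          omega
        · rw [Set.mem_singleton_iff.1 hv]
          have := (hAr b hbW.1).1
          show 0 ≤ b.1 ∧ b.1 ≤ w ∧ -s - 1 ≤ b.2 ∧ b.2 ≤ h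
          omega
        · have := (hAr v hv.1.1).1
          show 0 ≤ v.1 ∧ v.1 ≤ w ∧ -s - 1 ≤ v.2 ∧ v.2 ≤ h
          omega
        · show 0 ≤ v.1 ∧ v.1 ≤ w ∧ -s - 1 ≤ v.2 ∧ v.2 ≤ h
          omega) (by
        rintro v (⟨k1, k2, k3⟩ | hv)
        · show 0 ≤ v.1 ∧ v.1 ≤ w ∧ -s - 1 ≤ v.2 ∧ v.2 ≤ h
          omega
        · have := hXr v (hKX hv)
          show 0 ≤ v.1 ∧ v.1 ≤ w ∧ -s - 1 ≤ v.2 ∧ v.2 ≤ h
          omega) p (w, -s - 1) (z.1, -s - 1) t hp rfl rfl ht d6 e2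
    rcases hx2 with ⟨k1, k2, k3⟩ | hx2
    · rcases hx1 with ((hx1 | hx1) | hx1) | ⟨k4, k5, k6⟩
      · have h2 := hXr x hx1.1
        have h3 : x = z := by
          ext
          · exact k1
          · omega
        rw [h3] at hx1
        exact hx1.2 hzK
      · rw [Set.mem_singleton_iff.1 hx1] at k1 k3
        have h2 := (hAr b hbW.1).2
        omega
      · have h2 := (hAr x hx1.1.1).2
        omega
      · omega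
    · rcases hx1 with ((hx1 | hx1) | hx1) | ⟨k4, k5, k6⟩
      · exact hx1.2 hx2
      · rw [Set.mem_singleton_iff.1 hx1] at hx2
        apply hcon
        rw [hx'e (hKX hx2)]
        exact hx2
      · exact hx1.2 ⟨x, hKX hx2, rfl⟩
      · have h2 := hXr x (hKX hx2)
        omega
  refine ⟨x', hx'K, b, hbW.1.1, hx'b.symm, a, a₁, hab.symm, ha₁, ?_⟩
  refine (h1.symm).mono ?_
  rintro v ⟨⟨⟨k1, k2⟩, k3⟩, k4⟩
  refine ⟨⟨k1, fun x'' hx'' he => k4 ⟨x'', hx'', he⟩⟩, k3⟩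

theorem DX1 : DX1_stmt := by
  classical
  intro β c X K w h s ℓ z t hβ hs hℓ hzw hℓh hKX hXR hX0 hzK hz ht hzt hXK hHG
  obtain ⟨⟨a₁, a₂, ha₁, ha₂, hA⟩, ⟨b₁, b₂, hb₁, hb₂, hB⟩, hL⟩ := hHG
  have hXr : ∀ v ∈ X, 0 ≤ v.1 ∧ v.1 ≤ w ∧ 0 ≤ v.2 ∧ v.2 ≤ h := fun v hv => hXR hv
  have hzr := hXr z (hKX hzK)
  set xl : ℤ := max 0 (z.1 - 3 * ℓ) with hxl
  have hxl0 : 0 ≤ xl := le_max_left _ _
  have hxl1 : z.1 - 3 * ℓ ≤ xl := le_max_right _ _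
  have hxl2 : xl ≤ z.1 := max_le (by omega) (by omega)
  set A : Set V := {v | v ∈ rect 0 w (-s) h ∧ DX1_far z.1 ℓ v} with hAdef
  -- clusters
  set CA : Set V := {v | Conn c true (rect (z.1 + ℓ + 1) (z.1 + 3 * ℓ) (-s) (3 * ℓ)) a₁ v} with hCA
  set CB : Set V := {v | Conn c true (rect xl (z.1 + 3 * ℓ) (ℓ + 1) (3 * ℓ)) b₁ v} with hCB
  have hCAr : ∀ v ∈ CA, z.1 + ℓ + 1 ≤ v.1 ∧ v.1 ≤ z.1 + 3 * ℓ ∧ -s ≤ v.2 ∧ v.2 ≤ 3 * ℓ :=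
    fun v hv => (DP.Con.mem_right hv).1
  have hCBr : ∀ v ∈ CB, xl ≤ v.1 ∧ v.1 ≤ z.1 + 3 * ℓ ∧ ℓ + 1 ≤ v.2 ∧ v.2 ≤ 3 * ℓ :=
    fun v hv => (DP.Con.mem_right hv).1
  have hCAc : DP.Con CA a₁ a₂ := DP.Con.cluster hA
  have hCBc : DP.Con CB b₁ b₂ := DP.Con.cluster hB
  have mA : ∀ {u v : V}, Conn c true (rect (z.1 + ℓ + 1) (z.1 + 3 * ℓ) (-s) (3 * ℓ)) u v →
      Conn c true A u v := by
    intro u v huv
    refine DP.Con.mono ?_ huv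
    rintro x ⟨⟨g1, g2, g3, g4⟩, hx⟩
    exact ⟨⟨⟨by omega, by omega, g3, by omega⟩, Or.inl g1⟩, hx⟩
  have mB : ∀ {u v : V}, Conn c true (rect xl (z.1 + 3 * ℓ) (ℓ + 1) (3 * ℓ)) u v →
      Conn c true A u v := by
    intro u v huv
    refine DP.Con.mono ?_ huv
    rintro x ⟨⟨g1, g2, g3, g4⟩, hx⟩
    exact ⟨⟨⟨by omega, by omega, by omega, by omega⟩, Or.inr (Or.inl g3)⟩, hx⟩
  obtain ⟨g, hg1, hg2⟩ := DP.Asm_RC xl (z.1 + 3 * ℓ) (-s) (3 * ℓ) CB CA (by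
      intro v hv
      have := hCBr v hv
      show xl ≤ v.1 ∧ v.1 ≤ z.1 + 3 * ℓ ∧ -s ≤ v.2 ∧ v.2 ≤ 3 * ℓ
      omega) (by
      intro v hv
      have := hCAr v hv
      show xl ≤ v.1 ∧ v.1 ≤ z.1 + 3 * ℓ ∧ -s ≤ v.2 ∧ v.2 ≤ 3 * ℓ
      omega) b₁ b₂ a₁ a₂ hb₁ hb₂ ha₁ ha₂ hCBc hCAc
  have hab : Conn c true A a₁ b₁ := (mA hg2).trans (DP.Con.symm (mB hg1))
  have ha₁r := hCAr a₁ (DP.Con.mem_left hCAc)
  have hb₁r := hCBr b₁ (DP.Con.mem_left hCBc)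
  rcases lt_or_ge z.1 (3 * ℓ) with hlt | hge
  · -- the top part reaches the left side
    have hxe : xl = 0 := max_eq_left (by omega)
    have hbX : b₁ ∈ X := by
      have := hX0 b₁.2 (by omega) (by omega)
      have e : ((0 : ℤ), b₁.2) = b₁ := by
        ext
        · dsimp only; omega
        · rfl
      rwa [e] at this
    exact DX1_core hβ hs hℓ hKX hXR hzK hz ht hzt hXK ha₁ ha₁r.1 hbX hab
  · -- the left leg
    have hxe : xl = z.1 - 3 * ℓ := max_eq_right (by omega)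
    obtain ⟨e₁, e₂, he₁, he₂, hE⟩ := hL hge
    set CE : Set V := {v | Conn c true (rect (z.1 - 3 * ℓ) (z.1 - ℓ - 1) (-s) (3 * ℓ)) e₁ v} with hCE
    have hCEr : ∀ v ∈ CE, z.1 - 3 * ℓ ≤ v.1 ∧ v.1 ≤ z.1 - ℓ - 1 ∧ -s ≤ v.2 ∧ v.2 ≤ 3 * ℓ :=
      fun v hv => (DP.Con.mem_right hv).1
    have hCEc : DP.Con CE e₁ e₂ := DP.Con.cluster hE
    have mE : ∀ {u v : V}, Conn c true (rect (z.1 - 3 * ℓ) (z.1 - ℓ - 1) (-s) (3 * ℓ)) u v →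
        Conn c true A u v := by
      intro u v huv
      refine DP.Con.mono ?_ huv
      rintro x ⟨⟨g1, g2, g3, g4⟩, hx⟩
      exact ⟨⟨⟨by omega, by omega, by omega, by omega⟩, Or.inr (Or.inr g2)⟩, hx⟩
    obtain ⟨g', hg1', hg2'⟩ := DP.Asm_RC xl (z.1 + 3 * ℓ) (-s) (3 * ℓ) CB CE (by
        intro v hv
        have := hCBr v hv
        show xl ≤ v.1 ∧ v.1 ≤ z.1 + 3 * ℓ ∧ -s ≤ v.2 ∧ v.2 ≤ 3 * ℓ
        omega) (by
        intro v hv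
        have := hCEr v hv
        show xl ≤ v.1 ∧ v.1 ≤ z.1 + 3 * ℓ ∧ -s ≤ v.2 ∧ v.2 ≤ 3 * ℓ
        omega) b₁ b₂ e₁ e₂ hb₁ hb₂ he₁ he₂ hCBc hCEc
    have hae : Conn c true A a₁ e₁ :=
      (hab.trans (mB hg1')).trans (DP.Con.symm (mE hg2'))
    have he₁r := hCEr e₁ (DP.Con.mem_left hCEc)
    -- the half circle meets `K`
    set CL : Set V := {v | Conn c true A a₁ v} with hCL
    have hCLr : ∀ v ∈ CL, (0 ≤ v.1 ∧ v.1 ≤ w ∧ -s ≤ v.2 ∧ v.2 ≤ h) ∧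
        (z.1 + ℓ + 1 ≤ v.1 ∨ ℓ + 1 ≤ v.2 ∨ v.1 ≤ z.1 - ℓ - 1) :=
      fun v hv => (DP.Con.mem_right hv).1
    have hCLc : DP.Con CL a₁ e₁ := DP.Con.cluster hae
    set LR : Set V := CL ∪ {v | v.2 = -s - 1 ∧ 0 ≤ v.1 ∧ v.1 ≤ w ∧ v.1 ≠ z.1} with hLR
    set TB : Set V := {v | v.1 = z.1 ∧ -s - 1 ≤ v.2 ∧ v.2 ≤ 0} ∪ K with hTB
    have d1 : DP.Con LR (0, -s - 1) (e₁.1, -s - 1) :=
      con_horiz _ _ _ (by omega) fun i h2 h3 =>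
        Or.inr ⟨rfl, h2, by dsimp only; omega, by dsimp only; omega⟩
    have d2 : DP.Con LR (0, -s - 1) e₁ := by
      refine d1.step ?_ (Or.inl (DP.Con.mem_right hCLc))
      rw [adj_iff]
      refine ⟨⟨?_, ?_, ?_, ?_⟩, ?_, ?_⟩ <;> dsimp only <;> omega
    have d3 : DP.Con LR (0, -s - 1) a₁ := d2.trans (hCLc.symm.mono fun v hv => Or.inl hv)
    have d4 : DP.Con LR (0, -s - 1) (a₁.1, -s - 1) := by
      refine d3.step ?_ (Or.inr ⟨rfl, by dsimp only; omega, by dsimp only; omega,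
        by dsimp only; omega⟩)
      rw [adj_iff]
      refine ⟨⟨?_, ?_, ?_, ?_⟩, ?_, ?_⟩ <;> dsimp only <;> omega
    have d5 : DP.Con LR (0, -s - 1) (w, -s - 1) :=
      d4.trans (con_horiz _ _ _ (by omega) fun i h2 h3 =>
        Or.inr ⟨rfl, by dsimp only; omega, h3, by dsimp only; omega⟩)
    have ez : ((z.1, 0) : V) = z := by
      ext
      · rfl
      · exact hz.symm
    have e1 : DP.Con TB (z.1, -s - 1) z := by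
      have := con_vert (W := TB) z.1 (-s - 1) 0 (by omega) fun i h2 h3 => Or.inl ⟨rfl, h2, h3⟩
      rwa [ez] at this
    have e2 : DP.Con TB (z.1, -s - 1) t := e1.trans (hzt.mono fun v hv => Or.inr hv)
    obtain ⟨x, hx1, hx2⟩ := DP.Asm_RC 0 w (-s - 1) h LR TB (by
        rintro v (hv | ⟨k1, k2, k3, k4⟩)
        · have := (hCLr v hv).1
          show 0 ≤ v.1 ∧ v.1 ≤ w ∧ -s - 1 ≤ v.2 ∧ v.2 ≤ h
          omega
        · show 0 ≤ v.1 ∧ v.1 ≤ w ∧ -s - 1 ≤ v.2 ∧ v.2 ≤ h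
          omega) (by
        rintro v (⟨k1, k2, k3⟩ | hv)
        · show 0 ≤ v.1 ∧ v.1 ≤ w ∧ -s - 1 ≤ v.2 ∧ v.2 ≤ h
          omega
        · have := hXr v (hKX hv)
          show 0 ≤ v.1 ∧ v.1 ≤ w ∧ -s - 1 ≤ v.2 ∧ v.2 ≤ h
          omega) (0, -s - 1) (w, -s - 1) (z.1, -s - 1) t rfl rfl rfl ht d5 e2
    have hx : x ∈ CL ∧ x ∈ K := by
      rcases hx2 with ⟨k1, k2, k3⟩ | hx2
      · exfalso
        rcases hx1 with hx1 | ⟨k4, k5, k6, k7⟩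
        · have := (hCLr x hx1).2
          omega
        · exact k7 k1
      · rcases hx1 with hx1 | ⟨k4, k5, k6, k7⟩
        · exact ⟨hx1, hx2⟩
        · have := hXr x (hKX hx2)
          omega
    exact DX1_core hβ hs hℓ hKX hXR hzK hz ht hzt hXK ha₁ ha₁r.1 (hKX hx.2) hx.1

end TP
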