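import Pool.Agent.helper3.SP.SpecPP

/-!
# Module PP19 of project sp: the six arms of the annuli avoid the loops of the other colour
-/

namespace TP

open DP MeasureTheory

/-- The criterion (for the relative coordinates in absolute value) which gives distance two to the
region of the arms of colour `k`; `m = 32 * M`, `n = 32 * N`. -/
def PP19_crit (k : Bool) (M N : ℤ) (a b : ℤ) : Prop :=
  (a + 1 < 32 * M ∧ b + 1 < 32 * M) ∨ 32 * N + 1 < a ∨ 32 * N + 1 < b ∨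
    (if k = true then
      (a + 1 ≤ 4 * M ∧ 28 * M + 1 ≤ b ∧ b + 1 ≤ 36 * M) ∨
      (a + 1 ≤ 4 * N ∧ 28 * N + 1 ≤ b ∧ b + 1 ≤ 36 * N)
    else
      (28 * M + 1 ≤ a ∧ a + 1 ≤ 36 * M ∧ 12 * M + 1 ≤ b ∧ b + 1 ≤ 20 * M) ∨
      (28 * N + 1 ≤ a ∧ a + 1 ≤ 36 * N ∧ 12 * N + 1 ≤ b ∧ b + 1 ≤ 20 * N))

theorem PP19_key (z : V) (M N : ℕ) (k : Bool) (X : Set V)
    (hX : ∀ w ∈ X, PP19_crit k M N |w.1 - z.1| |w.2 - z.2|) :
    BDis (RgC z (32 * M) (32 * N) k) X := by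
  refine BDis.of_sd ?_
  rintro v ⟨⟨hv1, hv2⟩, hv3⟩ w hw
  by_contra hlt
  have hvw : sd v w ≤ 1 := by omega
  have hc := hX w hw
  have g0 := sd_triangle z v w
  have g1 := sd_triangle z w v
  rw [sd_comm w v] at g1
  have hj : ∀ j < 6, kol6 j ≠ k → 32 * M / 8 ≤ sd (zp6 z (32 * M) j) w ∧
      32 * N / 8 ≤ sd (zp6 z (32 * N) j) w := by
    intro j hj hk
    obtain ⟨h1, h2⟩ := hv3 j hj hk
    have g2 := sd_triangle (zp6 z (32 * M) j) w v
    have g3 := sd_triangle (zp6 z (32 * N) j) w v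
    rw [sd_comm w v] at g2 g3
    constructor <;> omega
  have e1 : (sd z w : ℤ) = max |w.1 - z.1| |w.2 - z.2| := by
    unfold sd
    rw [abs_sub_comm w.1, abs_sub_comm w.2, Int.abs_eq_natAbs, Int.abs_eq_natAbs]
    push_cast
    rfl
  have e2 := le_max_left |w.1 - z.1| |w.2 - z.2|
  have e3 := le_max_right |w.1 - z.1| |w.2 - z.2|
  have e4 := max_choice |w.1 - z.1| |w.2 - z.2|
  rw [← e1] at e2 e3 e4
  rcases hc with ⟨h1, h2⟩ | h | h | h
  · have : sd z w + 1 < 32 * M := by omega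
    omega
  · have : 32 * N + 1 < sd z w := by omega
    omega
  · have : 32 * N + 1 < sd z w := by omega
    omega
  · cases k
    · simp only [Bool.false_eq_true, if_false] at h
      have q0 := hj 0 (by norm_num) (by decide)
      have q1 := hj 1 (by norm_num) (by decide)
      have q3 := hj 3 (by norm_num) (by decide)
      have q4 := hj 4 (by norm_num) (by decide)
      unfold sd zp6 at q0 q1 q3 q4
      simp at q0 q1 q3 q4
      rcases abs_cases (w.1 - z.1) with ⟨ha, ha'⟩ | ⟨ha, ha'⟩ <;>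
        rcases abs_cases (w.2 - z.2) with ⟨hb, hb'⟩ | ⟨hb, hb'⟩ <;> rw [ha, hb] at h
      · clear q0 q3 q4; omega
      · clear q1 q3 q4; omega
      · clear q0 q1 q4; omega
      · clear q0 q1 q3; omega
    · simp only [if_true] at h
      have q2 := hj 2 (by norm_num) (by decide)
      have q5 := hj 5 (by norm_num) (by decide)
      unfold sd zp6 at q2 q5
      simp at q2 q5
      rcases abs_cases (w.1 - z.1) with ⟨ha, ha'⟩ | ⟨ha, ha'⟩ <;>
        rcases abs_cases (w.2 - z.2) with ⟨hb, hb'⟩ | ⟨hb, hb'⟩ <;> rw [ha, hb] at h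
      · clear q5; omega
      · clear q2; omega
      · clear q5; omega
      · clear q2; omega

theorem PP19_sge (e : Bool) {t lo : ℤ} (h0 : 0 ≤ lo) (h : lo < sge e * t) : sge e * t = |t| := by
  unfold sge at *
  cases e
  · simp only [Bool.false_eq_true, if_false] at *
    rw [abs_of_neg (by omega)]
    ring
  · simp only [if_true] at *
    rw [abs_of_pos (by omega)]
    ring

/-- The rectangles of the black loops; `a = w.1 - x.1`, `b = |w.2 - x.2|`, `A = S ℓ`, `B = S ^ 3 ℓ`. -/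
def PP19_hub (L a b : ℤ) : Prop :=
  (29 * L < a ∧ a < 131 * L ∧ b < 3 * L) ∨ (125 * L < a ∧ a < 131 * L ∧ b < 131 * L) ∨
  (125 * L < a ∧ a < 259 * L ∧ 125 * L < b ∧ b < 131 * L) ∨
  (232 * L < a ∧ a < 280 * L ∧ 104 * L < b ∧ b < 152 * L)

def PP19_out (L a b : ℤ) : Prop :=
  (29 * L < a ∧ a < 67 * L ∧ 13 * L < b ∧ b < 19 * L) ∨ (61 * L < a ∧ a < 67 * L ∧ b < 19 * L) ∨
  (61 * L < a ∧ a < 259 * L ∧ b < 3 * L) ∨ (232 * L < a ∧ a < 280 * L ∧ b < 24 * L)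

def PP19_midX (L A a b : ℤ) : Prop :=
  29 * L < a ∧ a < 32 * A - 29 * L ∧ 13 * L < b ∧ b < 19 * L

def PP19_midY (L A B a b : ℤ) (s : ℤ) : Prop :=
  (s + 29 * L < a ∧ a < 64 * A + 3 * L ∧ 13 * L < b ∧ b < 19 * L) ∨
  (64 * A - 3 * L < a ∧ a < 64 * A + 3 * L ∧ 13 * L < b ∧ b < 16 * B + 3 * L) ∨
  (64 * A - 3 * L < a ∧ a < 32 * B + 3 * L ∧ 16 * B - 3 * L < b ∧ b < 16 * B + 3 * L) ∨
  (29 * B < a ∧ a < 35 * B ∧ 13 * B < b ∧ b < 19 * B)

def PP19_hubW (L a b : ℤ) : Prop :=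
  (a < 3 * L ∧ 29 * L < b ∧ b < 259 * L) ∨ (a < 24 * L ∧ 232 * L < b ∧ b < 280 * L)

def PP19_midW (L A B a b : ℤ) : Prop :=
  (|a| < 3 * L ∧ 29 * L < b ∧ b < 32 * B + 3 * L) ∨
  (- 3 * L < a ∧ a < 32 * A + 3 * L ∧ 32 * A - 3 * L < b ∧ b < 32 * A + 3 * L) ∨
  (32 * A - 3 * L < a ∧ a < 32 * A + 3 * L ∧ 29 * L < b ∧ b < 32 * A + 3 * L) ∨
  (|a| < 3 * B ∧ 29 * B < b ∧ b < 35 * B)

theorem PP19_blk (h14 : PP14_stmt) (x : V) (ℓ₁ ℓ S ℓ₃ : ℕ) (h1 : 1 ≤ ℓ₁) (h2 : 1 ≤ ℓ)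
    (h3 : 1 ≤ ℓ₃) (hS : 16 ≤ S) (w : V) (hw : w ∈ regL (Lblk x ℓ₁ ℓ S ℓ₃)) :
    PP19_hub ℓ₁ |w.1 - x.1| |w.2 - x.2| ∨
    PP19_hub ℓ₁ |w.1 - (yc x ℓ S).1| |w.2 - x.2| ∨
    PP19_midX ℓ (S * ℓ : ℤ) (w.1 - x.1) |w.2 - x.2| ∨
    PP19_midY ℓ (S * ℓ : ℤ) (S ^ 3 * ℓ : ℤ) (w.1 - x.1) |w.2 - x.2| (32 * (S * ℓ : ℤ)) ∨
    PP19_midY ℓ (S * ℓ : ℤ) (S ^ 3 * ℓ : ℤ) (x.1 - w.1) |w.2 - x.2| 0 ∨
    PP19_out ℓ₃ |w.1 - x.1| |w.2 - x.2| := by
  have hB : (0 : ℤ) ≤ (S : ℤ) ^ 3 * ℓ := by positivity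
  have hB1 : (ℓ : ℤ) ≤ (S : ℤ) ^ 3 * ℓ := by
    have : (1 : ℤ) ≤ (S : ℤ) ^ 3 := by exact_mod_cast Nat.one_le_pow 3 S (by omega)
    nlinarith
  obtain ⟨q, hq, hqw⟩ := hw
  unfold Lblk Wblk at hq
  simp only [List.mem_flatMap, List.mem_cons, List.not_mem_nil, or_false] at hq
  obtain ⟨W, ⟨e, -, hW⟩, hq⟩ := hq
  have hr : w ∈ regL W.all := ⟨q, hq, hqw⟩
  rcases hW with rfl | rfl | rfl | rfl | rfl | rfl
  · left
    rcases (h14 x ℓ₁ S e h1 hS).1 w hr with g | g | g | g <;>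
      rw [PP19_sge e (by positivity) g.1] at g
    · exact Or.inl g
    · exact Or.inr (Or.inl g)
    · exact Or.inr (Or.inr (Or.inl g))
    · exact Or.inr (Or.inr (Or.inr g))
  · right; left
    rcases (h14 (yc x ℓ S) ℓ₁ S e h1 hS).1 w hr with g | g | g | g <;>
      rw [PP19_sge e (by positivity) g.1] at g
    · exact Or.inl g
    · exact Or.inr (Or.inl g)
    · exact Or.inr (Or.inr (Or.inl g))
    · exact Or.inr (Or.inr (Or.inr g))
  · right; right; left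
    have g := (h14 x ℓ S e h2 hS).2.2.1 w hr
    rw [PP19_sge e (by positivity) g.2.2.1] at g
    unfold PP19_midX
    obtain ⟨g1, g2, g3, g4⟩ := g
    refine ⟨g1, ?_, g3, g4⟩
    linarith
  · right; right; right; left
    unfold PP19_midY
    rcases (h14 x ℓ S e h2 hS).2.2.2.1 w hr with g | g | g | g
    · rw [PP19_sge e (by positivity) g.2.2.1] at g
      obtain ⟨g1, g2, g3, g4⟩ := g
      exact Or.inl ⟨by linarith, by linarith, by linarith, by linarith⟩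
    · rw [PP19_sge e (by positivity) g.2.2.1] at g
      obtain ⟨g1, g2, g3, g4⟩ := g
      exact Or.inr (Or.inl ⟨by linarith, by linarith, by linarith, by linarith⟩)
    · rw [PP19_sge e (by linarith) g.2.2.1] at g
      obtain ⟨g1, g2, g3, g4⟩ := g
      exact Or.inr (Or.inr (Or.inl ⟨by linarith, by linarith, by linarith, by linarith⟩))
    · rw [PP19_sge e (by positivity) g.2.2.1] at g
      obtain ⟨g1, g2, g3, g4⟩ := g
      exact Or.inr (Or.inr (Or.inr ⟨by linarith, by linarith, by linarith, by linarith⟩))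
  · right; right; right; right; left
    unfold PP19_midY
    rcases (h14 x ℓ S e h2 hS).2.2.2.2 w hr with g | g | g | g
    · rw [PP19_sge e (by positivity) g.2.2.1] at g
      obtain ⟨g1, g2, g3, g4⟩ := g
      exact Or.inl ⟨by linarith, by linarith, by linarith, by linarith⟩
    · rw [PP19_sge e (by positivity) g.2.2.1] at g
      obtain ⟨g1, g2, g3, g4⟩ := g
      exact Or.inr (Or.inl ⟨by linarith, by linarith, by linarith, by linarith⟩)
    · rw [PP19_sge e (by linarith) g.2.2.1] at g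
      obtain ⟨g1, g2, g3, g4⟩ := g
      exact Or.inr (Or.inr (Or.inl ⟨by linarith, by linarith, by linarith, by linarith⟩))
    · rw [PP19_sge e (by positivity) g.2.2.1] at g
      obtain ⟨g1, g2, g3, g4⟩ := g
      exact Or.inr (Or.inr (Or.inr ⟨by linarith, by linarith, by linarith, by linarith⟩))
  · right; right; right; right; right
    rcases (h14 x ℓ₃ S e h3 hS).2.1 w hr with g | g | g | g <;>
      rw [PP19_sge e (by positivity) g.1] at g
    · exact Or.inl g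
    · exact Or.inr (Or.inl g)
    · exact Or.inr (Or.inr (Or.inl g))
    · exact Or.inr (Or.inr (Or.inr g))

theorem PP19_wht (h15 : PP15_stmt) (x : V) (ℓ₁ ℓ S ℓ₃ : ℕ) (h1 : 1 ≤ ℓ₁) (h2 : 1 ≤ ℓ)
    (h3 : 1 ≤ ℓ₃) (hS : 16 ≤ S) (w : V) (hw : w ∈ regL (Lwht x ℓ₁ ℓ S ℓ₃)) :
    PP19_hubW ℓ₁ |w.1 - x.1| |w.2 - x.2| ∨
    PP19_hubW ℓ₁ |w.1 - (yc x ℓ S).1| |w.2 - x.2| ∨
    PP19_midW ℓ (S * ℓ : ℤ) (S ^ 3 * ℓ : ℤ) (w.1 - x.1) |w.2 - x.2| ∨
    PP19_hubW ℓ₃ |w.1 - x.1| |w.2 - x.2| := by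
  have hA1 : (ℓ : ℤ) ≤ (S : ℤ) * ℓ := by
    have : (1 : ℤ) ≤ (S : ℤ) := by omega
    nlinarith
  obtain ⟨q, hq, hqw⟩ := hw
  unfold Lwht Wwht at hq
  simp only [List.mem_flatMap, List.mem_cons, List.not_mem_nil, or_false] at hq
  obtain ⟨W, ⟨e, -, hW⟩, hq⟩ := hq
  have hr : w ∈ regL W.all := ⟨q, hq, hqw⟩
  rcases hW with rfl | rfl | rfl | rfl
  · left
    rcases (h15 x ℓ₁ S e h1 hS).1 w hr with g | g <;>
      rw [PP19_sge e (by positivity) g.2.1] at g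
    · exact Or.inl g
    · exact Or.inr g
  · right; left
    rcases (h15 (yc x ℓ S) ℓ₁ S e h1 hS).1 w hr with g | g <;>
      rw [PP19_sge e (by positivity) g.2.1] at g
    · exact Or.inl g
    · exact Or.inr g
  · right; right; left
    unfold PP19_midW
    rcases (h15 x ℓ S e h2 hS).2 w hr with g | g | g | g
    · rw [PP19_sge e (by positivity) g.2.1] at g
      obtain ⟨g1, g2, g3⟩ := g
      exact Or.inl ⟨g1, g2, by linarith⟩
    · rw [PP19_sge e (by linarith) g.2.2.1] at g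
      obtain ⟨g1, g2, g3, g4⟩ := g
      exact Or.inr (Or.inl ⟨by linarith, by linarith, by linarith, by linarith⟩)
    · rw [PP19_sge e (by positivity) g.2.2.1] at g
      obtain ⟨g1, g2, g3, g4⟩ := g
      exact Or.inr (Or.inr (Or.inl ⟨by linarith, by linarith, by linarith, by linarith⟩))
    · rw [PP19_sge e (by positivity) g.2.1] at g
      obtain ⟨g1, g2, g3⟩ := g
      exact Or.inr (Or.inr (Or.inr ⟨by linarith, by linarith, by linarith⟩))
  · right; right; right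
    rcases (h15 x ℓ₃ S e h3 hS).1 w hr with g | g <;>
      rw [PP19_sge e (by positivity) g.2.1] at g
    · exact Or.inl g
    · exact Or.inr g

/-- Arithmetic of the black loops. -/
theorem PP19_arB (L1 L A B L3 a a' b : ℤ) (h1 : 16 ≤ L1) (h2 : 64 * L1 ≤ L) (h3 : 16 * L ≤ A)
    (h4 : 256 * A ≤ B) (h5 : 64 * B ≤ L3) (hb : 0 ≤ b) (ha : a' = a - 32 * A)
    (h : PP19_hub L1 |a| b ∨ PP19_hub L1 |a'| b ∨ PP19_midX L A a b ∨
      PP19_midY L A B a b (32 * A) ∨ PP19_midY L A B (-a) b 0 ∨ PP19_out L3 |a| b) :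
    PP19_crit false (8 * L1) L |a| b ∧ PP19_crit false (8 * L1) L |a'| b ∧
      PP19_crit false B L3 |a| b := by
  have f1 := abs_cases a
  have f2 := abs_cases a'
  unfold PP19_crit
  simp only [Bool.false_eq_true, if_false]
  rcases h with h | h | h | h | h | h
  · unfold PP19_hub at h
    rcases h with h | h | h | h <;> refine ⟨by omega, by omega, by omega⟩
  · unfold PP19_hub at h
    rcases h with h | h | h | h <;> refine ⟨by omega, by omega, by omega⟩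
  · unfold PP19_midX at h
    refine ⟨by omega, by omega, by omega⟩
  · unfold PP19_midY at h
    rcases h with h | h | h | h <;> refine ⟨by omega, by omega, by omega⟩
  · unfold PP19_midY at h
    rcases h with h | h | h | h <;> refine ⟨by omega, by omega, by omega⟩
  · unfold PP19_out at h
    rcases h with h | h | h | h <;> refine ⟨by omega, by omega, by omega⟩

/-- Arithmetic of the white loops. -/
theorem PP19_arW (L1 L A B L3 a a' b : ℤ) (h1 : 16 ≤ L1) (h2 : 64 * L1 ≤ L) (h3 : 16 * L ≤ A)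
    (h4 : 256 * A ≤ B) (h5 : 64 * B ≤ L3) (hb : 0 ≤ b) (ha : a' = a - 32 * A)
    (h : PP19_hubW L1 |a| b ∨ PP19_hubW L1 |a'| b ∨ PP19_midW L A B a b ∨ PP19_hubW L3 |a| b) :
    PP19_crit true (8 * L1) L |a| b ∧ PP19_crit true (8 * L1) L |a'| b ∧
      PP19_crit true B L3 |a| b := by
  have f1 := abs_cases a
  have f2 := abs_cases a'
  unfold PP19_crit
  simp only [if_true]
  rcases h with h | h | h | h
  · unfold PP19_hubW at h
    rcases h with h | h <;> refine ⟨by omega, by omega, by omega⟩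
  · unfold PP19_hubW at h
    rcases h with h | h <;> refine ⟨by omega, by omega, by omega⟩
  · unfold PP19_midW at h
    rcases h with h | h | h | h <;> refine ⟨by omega, by omega, by omega⟩
  · unfold PP19_hubW at h
    rcases h with h | h <;> refine ⟨by omega, by omega, by omega⟩

theorem PP19 (h14 : PP14_stmt) (h15 : PP15_stmt) : PP19_stmt := by
  intro x m₀ n₀ ℓ₁ ℓ S ℓ₃ k hP
  obtain ⟨p1, p2, p3, p4, p5, p6⟩ := hP
  have hA : 16 * (ℓ : ℤ) ≤ (S : ℤ) * ℓ := by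
    have : (16 : ℤ) ≤ (S : ℤ) := by exact_mod_cast p4
    nlinarith
  have hB : 256 * ((S : ℤ) * ℓ) ≤ (S : ℤ) ^ 3 * ℓ := by
    have h16 : (16 : ℤ) ≤ (S : ℤ) := by exact_mod_cast p4
    have h0 : (0 : ℤ) ≤ (S : ℤ) * ℓ := by positivity
    have h256 : (256 : ℤ) ≤ (S : ℤ) ^ 2 := by nlinarith
    nlinarith
  have h5 : 64 * ((S : ℤ) ^ 3 * ℓ) ≤ ℓ₃ := by exact_mod_cast p5
  have hℓ : 1 ≤ ℓ := by omega
  have hSl : ℓ ≤ S ^ 3 * ℓ := Nat.le_mul_of_pos_left _ (Nat.one_le_pow _ _ (by omega))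
  have hℓ₃ : 1 ≤ ℓ₃ := by omega
  have e1 : 256 * ℓ₁ = 32 * (8 * ℓ₁) := by ring
  have ey : (yc x ℓ S).1 = x.1 + 32 * ((S : ℤ) * ℓ) := by unfold yc; simp only; ring
  have ey2 : (yc x ℓ S).2 = x.2 := rfl
  have key : ∀ w ∈ regL (Lcol (!k) x ℓ₁ ℓ S ℓ₃),
      PP19_crit k (8 * ℓ₁ : ℕ) ℓ |w.1 - x.1| |w.2 - x.2| ∧
      PP19_crit k (8 * ℓ₁ : ℕ) ℓ |w.1 - (yc x ℓ S).1| |w.2 - (yc x ℓ S).2| ∧
      PP19_crit k (S ^ 3 * ℓ : ℕ) ℓ₃ |w.1 - x.1| |w.2 - x.2| := by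
    intro w hw
    rw [ey2]
    cases k
    · have g := PP19_blk h14 x ℓ₁ ℓ S ℓ₃ (by omega) hℓ hℓ₃ p4 w hw
      have := PP19_arB ℓ₁ ℓ (S * ℓ) (S ^ 3 * ℓ) ℓ₃ (w.1 - x.1) (w.1 - (yc x ℓ S).1) |w.2 - x.2|
        (by omega) (by omega) hA hB h5 (abs_nonneg _) (by rw [ey]; ring)
        (by rw [neg_sub]; exact g)
      push_cast
      exact this
    · have g := PP19_wht h15 x ℓ₁ ℓ S ℓ₃ (by omega) hℓ hℓ₃ p4 w hw
      have := PP19_arW ℓ₁ ℓ (S * ℓ) (S ^ 3 * ℓ) ℓ₃ (w.1 - x.1) (w.1 - (yc x ℓ S).1) |w.2 - x.2|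
        (by omega) (by omega) hA hB h5 (abs_nonneg _) (by rw [ey]; ring) g
      push_cast
      exact this
  rw [e1]
  exact ⟨PP19_key _ _ _ _ _ fun w hw => (key w hw).1,
    PP19_key _ _ _ _ _ fun w hw => (key w hw).2.1,
    PP19_key _ _ _ _ _ fun w hw => (key w hw).2.2⟩

end TP
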