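import Pool.Agent.helper3.SP.SpecPP

/-!
# Module PP29 of project sp: the arms of one colour through the whole block
-/

namespace TP

open DP MeasureTheory

/-- A hook as a connection. -/
theorem PP29_hook {U : Set V} {A : V} {r : ℕ} (h : Hok U A r) {W : Set V} {u v : V}
    (hc : Con W u v) (hu : sd A u ≤ r) (hv : 3 * r ≤ sd A v) : ∃ z ∈ U, Con W u z := by
  obtain ⟨z, hz, hz'⟩ := h {z | Con W u z} u v hc.cluster hu hv
  exact ⟨z, hz, hz'⟩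

theorem PP29_sdz (x : V) (n i : ℕ) : sd x (zpt x n i) = n := by
  unfold zpt sd
  split_ifs <;> simp

theorem PP29_idx (k : Bool) (i : ℕ) (h : i < 4) (hk : kol i = k) :
    (i + 2) % 4 < 4 ∧ kol ((i + 2) % 4) = k ∧ ((i + 2) % 4 + 2) % 4 = i := by
  subst hk
  unfold kol
  interval_cases i <;> simp

/-- Gluing of the arms of colour `k` of an inner and of an outer block by connected sets `K i`
between them. -/
theorem PP29_glue (c : V → Bool) (k : Bool) (x : V) (m₀ n₁ m₂ n₀ r₁ r₂ a b : ℕ)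
    (K : ℕ → Set V) (hK : ∀ i < 4, kol i = k → CnS c k (ann x a b) (K i) ∧
      Hok (K i) (zpt x n₁ i) r₁ ∧ Hok (K i) (zpt x m₂ i) r₂)
    (h1 : Mk4 c x m₀ n₁ k) (h2 : Mk4 c x m₂ n₀ k) (e1 : n₁ / 64 ≤ r₁) (e2 : m₂ / 64 ≤ r₂)
    (e3 : m₀ + 3 * r₁ ≤ n₁) (e4 : m₂ + 3 * r₂ ≤ n₀) (e5 : m₀ + m₀ / 8 < a)
    (e6 : b + n₀ / 8 < n₀) (e7 : n₁ + n₀ / 8 < n₀) (e8 : m₀ + m₀ / 8 < m₂) :
    Mk4 c x m₀ n₀ k := by
  -- one arm
  have key : ∀ i < 4, ∀ σ < 4, ∀ τ < 4, kol i = k → kol σ = k → kol τ = k →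
      (∃ p ∈ (Dmark 4 x m₀).I i, ∃ u ∈ bd x n₁, sd (zpt x n₁ σ) u ≤ n₁ / 64 ∧
        Conn c k (HS true x n₁ \ ((Dmark 4 x m₀).N k ∪ opp 4 (zpt x n₁) (n₁ / 8) k)) p u) →
      (∃ p ∈ (Dmark 4 x m₂).I σ, ∃ u ∈ bd x n₀, sd (zpt x n₀ τ) u ≤ n₀ / 64 ∧
        Conn c k (HS true x n₀ \ ((Dmark 4 x m₂).N k ∪ opp 4 (zpt x n₀) (n₀ / 8) k)) p u) →
      ∃ p ∈ (Dmark 4 x m₀).I i, ∃ u ∈ bd x n₀, sd (zpt x n₀ τ) u ≤ n₀ / 64 ∧
        Conn c k (HS true x n₀ \ ((Dmark 4 x m₀).N k ∪ opp 4 (zpt x n₀) (n₀ / 8) k)) p u := by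
    rintro i hi σ hσ τ hτ hki hkσ hkτ ⟨p, hp, u, hu, hpu, hc⟩ ⟨p', hp', u', hu', hpu', hc'⟩
    refine ⟨p, hp, u', hu', hpu', ?_⟩
    obtain ⟨⟨hK1, hK2⟩, hK3, hK4⟩ := hK σ hσ hkσ
    have hp0 : sd x p = m₀ := hp.1
    have hu0 : sd x u = n₁ := hu
    have hp'0 : sd x p' = m₂ := hp'.1
    have hu'0 : sd x u' = n₀ := hu'
    obtain ⟨z, hz, hz'⟩ := PP29_hook hK3 (DP.Con.symm hc) (hpu.trans e1) (by
      have := sd_triangle x p (zpt x n₁ σ)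
      rw [PP29_sdz, sd_comm p] at this
      omega)
    obtain ⟨w, hw, hw'⟩ := PP29_hook hK4 hc' (hp'.2.trans e2) (by
      have := sd_triangle x (zpt x m₂ σ) u'
      rw [PP29_sdz] at this
      omega)
    -- distances
    have hN : ∀ v : V, m₀ + m₀ / 8 < sd x v → v ∉ (Dmark 4 x m₀).N k := by
      rintro v hv (h | ⟨l, hl, hkl, h⟩)
      · rw [Set.mem_ofPred_eq] at h
        omega
      · have := sd_triangle x (zpt x m₀ l) v
        rw [PP29_sdz] at this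
        omega
    have hO : ∀ v : V, sd x v + n₀ / 8 < n₀ → v ∉ opp 4 (zpt x n₀) (n₀ / 8) k := by
      rintro v hv ⟨l, hl, hkl, h⟩
      have := sd_triangle x v (zpt x n₀ l)
      rw [PP29_sdz, sd_comm v] at this
      omega
    -- first part
    have s1 : Conn c k (HS true x n₀ \ ((Dmark 4 x m₀).N k ∪ opp 4 (zpt x n₀) (n₀ / 8) k)) p z := by
      have g : Conn c k (HS true x n₁ \ ((Dmark 4 x m₀).N k ∪ opp 4 (zpt x n₁) (n₁ / 8) k)) p z :=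
        DP.Con.trans hc hz'
      refine DP.Conn.mono ?_ g
      rintro v ⟨hv1, hv2⟩
      have hv1' : sd x v ≤ n₁ := hv1
      refine ⟨show sd x v ≤ n₀ by omega, ?_⟩
      rintro (h | h)
      · exact hv2 (Or.inl h)
      · exact hO v (by omega) h
    have s2 : Conn c k (HS true x n₀ \ ((Dmark 4 x m₀).N k ∪ opp 4 (zpt x n₀) (n₀ / 8) k)) z w := by
      refine DP.Con.mono ?_ (hK2 z hz w hw)
      intro v hv
      obtain ⟨⟨hv1, hv2⟩, hv3⟩ := hK1 v hv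
      refine ⟨⟨show sd x v ≤ n₀ by omega, ?_⟩, hv3⟩
      rintro (h | h)
      · exact hN v (by omega) h
      · exact hO v (by omega) h
    have s3 : Conn c k (HS true x n₀ \ ((Dmark 4 x m₀).N k ∪ opp 4 (zpt x n₀) (n₀ / 8) k)) w u' := by
      have g : Conn c k (HS true x n₀ \ ((Dmark 4 x m₂).N k ∪ opp 4 (zpt x n₀) (n₀ / 8) k)) w u' :=
        DP.Con.trans (DP.Con.symm hw') hc'
      refine DP.Conn.mono ?_ g
      rintro v ⟨hv1, hv2⟩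
      have hv3 : m₂ ≤ sd x v := by
        by_contra h
        exact hv2 (Or.inl (Or.inl (not_le.1 h)))
      refine ⟨hv1, ?_⟩
      rintro (h | h)
      · exact hN v (by omega) h
      · exact hv2 (Or.inr h)
    exact DP.Conn.trans s1 (DP.Conn.trans s2 s3)
  unfold Mk4 MrkC at *
  rcases h1 with h1 | h1 <;> rcases h2 with h2 | h2
  · left
    intro i hi hk
    exact key i hi i hi i hi hk hk hk (h1 i hi hk) (h2 i hi hk)
  · right
    intro i hi hk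
    obtain ⟨g1, g2, g3⟩ := PP29_idx k i hi hk
    exact key i hi i hi _ g1 hk hk g2 (h1 i hi hk) (h2 i hi hk)
  · right
    intro i hi hk
    obtain ⟨g1, g2, g3⟩ := PP29_idx k i hi hk
    exact key i hi _ g1 _ g1 hk g2 g2 (h1 i hi hk) (h2 _ g1 g2)
  · left
    intro i hi hk
    obtain ⟨g1, g2, g3⟩ := PP29_idx k i hi hk
    have h3 := h2 _ g1 g2
    rw [g3] at h3
    exact key i hi _ g1 i hi hk g2 hk (h1 i hi hk) h3

theorem PP29 (h28 : PP28_stmt) : PP29_stmt := by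
  intro c x m₀ n₀ ℓ₁ ℓ S ℓ₃ hP hA hL
  obtain ⟨p1, p2, p3, p4, p5, p6⟩ := id hP
  obtain ⟨a1, a2, a3, a4, a5, a6⟩ := hA
  obtain ⟨K, hK⟩ := h28 c x m₀ n₀ ℓ₁ ℓ S ℓ₃ hP a3 a4 a5 hL
  have hS : 1 ≤ S ^ 3 := Nat.one_le_pow _ _ (by omega)
  have hSl : ℓ ≤ S ^ 3 * ℓ := Nat.le_mul_of_pos_left _ hS
  refine PP29_glue c false x m₀ (32 * ℓ₁) (256 * ℓ₃) n₀ ℓ₁ (8 * ℓ₃) (29 * ℓ₁) (280 * ℓ₃)
    (fun i => K (decide (i = 1))) ?_ a1 a6 (by omega) (by omega) (by omega) (by omega) (by omega)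
    (by omega) (by omega) (by omega)
  intro i hi hk
  have hi' : i = 1 ∨ i = 3 := by
    unfold kol at hk
    interval_cases i <;> simp at hk <;> simp
  rcases hi' with rfl | rfl
  · obtain ⟨g1, g2, g3, g4⟩ := hK true
    exact ⟨g1, g2, g4⟩
  · obtain ⟨g1, g2, g3, g4⟩ := hK false
    exact ⟨g1, g2, g4⟩

end TP
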