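import Pool.Agent.helper61.TP.C12
import Pool.Agent.helper33.SP.SpecC1S

/-!
# Project sp, piece D4: the spectral sample does not hit the collar

`‖f - E_U f‖ ^ 2 ≤ ‖f - g‖ ^ 2 = 4 P (f ≠ g)`, `f` = crossing of the rectangle, `g` = crossing of a slightly
smaller one. `P (f ≠ g)` is small because a vertical crossing of `[0, w] × [0, h]` can be extended to
`[0, w] × [-s, h]` except with small probability: take the leftmost crossing (explored from the left side), let
`z` be its lowest point on the row `0`; outside the revealed set everything is fresh and at each scale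
`ℓ > s` around `z` there is a black half circle (right, top, left of `z`) with probability at least
`c`; its right leg starts on the row `-s` and runs into the leftmost crossing before it meets any
other revealed site. The corner (`z` close to the right side) is excluded by the one-arm bound.

To treat horizontal crossings by the same proof everything is formulated for the colouring
`kap β b v = b (β v)` where `β` is `br` or `br ∘ (exchange of the coordinates)`.
-/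

namespace TP

open DP MeasureTheory

/-! ## Laws -/

/-- Colouring by the coins `b (β v)`. -/
def kap (β : V → V) (b : V → Bool) (v : V) : Bool := b (β v)

/-- Small bricks, RSW and the one-arm bound. -/
def Law (β : V → V) : Prop :=
  (∀ v w : V, β v = β w → v ≠ w → Adj v w) ∧
  (∃ c : ℝ, 0 < c ∧ ∃ L : ℤ, 0 < L ∧ ∀ (a b d e : ℤ), a ≤ b → d ≤ e →
    (L ≤ e - d → b - a ≤ 4 * (e - d) → c ≤ Pr {ω | hcross (kap β ω) true a b d e}) ∧
    (L ≤ b - a → e - d ≤ 4 * (b - a) → c ≤ Pr {ω | vcross (kap β ω) true a b d e})) ∧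
  (∃ C : ℝ, 0 < C ∧ ∃ a : ℝ, 0 < a ∧ ∀ (x : V) (m n : ℕ), 1 ≤ m → m ≤ n →
    Pr {ω | reach (kap β ω) true x m n} ≤ C * ((m : ℝ) / n) ^ a)

/-- DX6. The two laws (`RSW`, `C2`, `br_adj`; for the second one `DP.RSX_h_sw`, `DP.RSX_v_sw`,
`DP.RSX_adj_sw`, connections are transported by `DP.RSX_con`; `RSX_sw v = (v.2, v.1)`). -/
def DX6_stmt : Prop := Law br ∧ Law fun v => br (v.2, v.1)

/-! ## The deterministic part -/

/-- Black half circle around `(z, 0)` at the scale `ℓ`. -/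
def HG (c : V → Bool) (s z ℓ : ℤ) : Prop :=
  vcross c true (z + ℓ + 1) (z + 3 * ℓ) (-s) (3 * ℓ) ∧
  hcross c true (max 0 (z - 3 * ℓ)) (z + 3 * ℓ) (ℓ + 1) (3 * ℓ) ∧
  (3 * ℓ ≤ z → vcross c true (z - 3 * ℓ) (z - ℓ - 1) (-s) (3 * ℓ))

/-- The sites of the revealed set which are connected to the top in the revealed set. -/
def KT (c : V → Bool) (w h : ℤ) : Set V :=
  {v | v ∈ RV c w h ∧ ∃ t : V, t.2 = h ∧ Conn c true (RV c w h) v t}

/-- Extension to the row `-s`: a path of sites whose coins are not used by `X`, from a site next to a site `v`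
which shares its coin with a site of `K`. -/
def EX (β : V → V) (c : V → Bool) (X K : Set V) (w h s : ℤ) : Prop :=
  ∃ v' ∈ K, ∃ v ∈ rect 0 w (-s) h, β v = β v' ∧ ∃ z' y : V, Adj v z' ∧ y.2 = -s ∧
    Conn c true {x | x ∈ rect 0 w (-s) h ∧ ∀ x' ∈ X, β x' ≠ β x} z' y

/-- DX1. A half circle gives an extension. Proof: glue the crossings of `HG` (`DP.Asm_RC`) to a
connected black set `Γ` which contains `p₀` on the row `-s` to the right of `z` and either a site of the
column `0` (case `z.1 < 3 ℓ`; it is in `X`) or a site of the row `-s` to the left of `z` (then `Γ` meets the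
connection from `z` to `t` in `K` by `RC` in the rectangle enlarged by the row `-s - 1`). Let `x₀` be the first
site of `Γ`, starting at `p₀`, with `β x₀ = β x'` for some `x' ∈ X` (`x' = x₀` if `x₀ ∈ X`). If `x' ∉ K` then the
part of `Γ` before `x₀`, `x₀`, `x'` and the connection in `X \ K` from `x'` to the column `0` do not meet
the vertical set (column from `(z.1, -s - 1)` to `z`, then `K`): contradiction to `RC` (in
`[0, w] × [-s - 1, h]`, the row `-s - 1` is used to connect `p₀` to the right side). -/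
def DX1_stmt : Prop :=
  ∀ (β : V → V) (c : V → Bool) (X K : Set V) (w h s ℓ : ℤ) (z t : V),
    (∀ v w : V, β v = β w → v ≠ w → Adj v w) → 2 ≤ s → s < ℓ → z.1 + 3 * ℓ ≤ w → 3 * ℓ ≤ h →
    K ⊆ X → X ⊆ rect 0 w 0 h → (∀ y : ℤ, 0 ≤ y → y ≤ h → (0, y) ∈ X) → z ∈ K → z.2 = 0 → t.2 = h →
    Con K z t → (∀ x ∈ X, x ∉ K → ∃ p : V, p.1 = 0 ∧ Con (X \ K) p x) →
      HG c s z.1 ℓ → EX β c X K w h s

/-- DX2. Deterministic facts on the revealed set (first part: unfold `RV`, `WL`, `DP.Con.cluster`; the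
second part is immediate: `y → z' → v → v' → t`). -/
def DX2_stmt : Prop :=
  (∀ (c : V → Bool) (w h : ℤ), 0 ≤ w → 0 ≤ h → KT c w h ⊆ RV c w h ∧ RV c w h ⊆ rect 0 w 0 h ∧
    (∀ y : ℤ, 0 ≤ y → y ≤ h → (0, y) ∈ RV c w h) ∧
    (∀ z ∈ KT c w h, ∃ t : V, t.2 = h ∧ Con (KT c w h) z t) ∧
    (∀ x ∈ RV c w h, x ∉ KT c w h → ∃ p : V, p.1 = 0 ∧ Con (RV c w h \ KT c w h) p x)) ∧
  (∀ (β : V → V) (c : V → Bool) (w h s : ℤ), (∀ v w : V, β v = β w → v ≠ w → Adj v w) →
    (∀ v w : V, β v = β w → c v = c w) → 0 ≤ w → 0 ≤ h → 0 ≤ s →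
    EX β c (RV c w h) (KT c w h) w h s → vcross c true 0 w (-s) h)

/-! ## Probabilities -/

/-- DX3. The half circles: locality (sites at distance in `(ℓ, 3 ℓ]` from `(z, 0)`) and lower bound (three
rectangles of aspect ratio at most 4, FKG `DP.Bfkg`, `DP.Bzero`, locality in terms of coins). -/
def DX3_stmt : Prop :=
  ∀ β : V → V, Law β →
    (∀ s z ℓ : ℤ, 0 ≤ s → s < ℓ → 0 ≤ z →
      DP.Loc {ω | HG (kap β ω) s z ℓ} (β '' {v | ℓ < sd (z, 0) v ∧ (sd (z, 0) v : ℤ) ≤ 3 * ℓ}) ∧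
      DP.Mon true {ω | HG (kap β ω) s z ℓ}) ∧
    ∃ c : ℝ, 0 < c ∧ c ≤ 1 ∧ ∃ L : ℤ, ∀ s z ℓ : ℤ, L ≤ ℓ → 0 ≤ s → s < ℓ → 0 ≤ z →
      c ≤ Pr {ω | HG (kap β ω) s z ℓ}

/-- DX4. Many scales: independence (`DP.Bindep`, `DP.Bmarg`; the sets of colours at different scales
are at distance at least 2, hence the coins are different by the first property of `Law`). -/
def DX4_stmt : Prop :=
  ∀ β : V → V, Law β → ∃ c : ℝ, 0 < c ∧ c ≤ 1 ∧ ∃ L : ℤ, ∀ (s z ℓ : ℤ) (J : ℕ), L ≤ ℓ → 0 ≤ s →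
    s < ℓ → 0 ≤ z →
      Pr {ω | ∀ j < J, ¬ HG (kap β ω) s z (4 ^ j * ℓ)} ≤ (1 - c) ^ J

/-- DX5. Extension of vertical crossings. Proof: choose `J` with `(1 - c) ^ J ≤ ε / 2`, `ℓ = s + 1`,
`R = 3 * 4 ^ J * (s + 1)`; for a finite set `X` and `K ⊆ X` let `W (X, K) = {RV = X, KT = K}` (local in `β '' X`,
`DP.RR1`). If some `z ∈ K` is on the row `0` with `z.1 + R ≤ w` then `W (X, K)` and `EX β . X K` are
independent and `P (not EX) ≤ (1 - c) ^ J` (DX1, DX4); on `W (X, K) ∩ EX` there is a crossing of the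
large rectangle (DX2). If there is no such `z` but a crossing (`DP.Asm_RR5`) then there is a black
arm from the box of radius `R` around `(w, 0)` to distance `h`. See `TR4` (helper61/TP/TR4.lean) for the
same summation. -/
def DX5_stmt : Prop :=
  ∀ β : V → V, Law β → ∀ ε : ℝ, 0 < ε → ∃ δ : ℝ, 0 < δ ∧ ∃ L : ℤ, 2 ≤ L ∧ ∀ w h s : ℤ, L ≤ s →
    (s : ℝ) ≤ δ * w → (s : ℝ) ≤ δ * h →
      Pr {ω | vcross (kap β ω) true 0 w 0 h} ≤ Pr {ω | vcross (kap β ω) true 0 w (-s) h} + ε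

/-- DX7. For `ph` and `pv`: from `DX5` for `br` (`kap br b = col b`) and for the exchanged law
(`RSX_v_sw`), even translations `TSX`, monotonicity `RSW_ph_mono`, `RSW_pv_mono`. Parity: for the left side use
`ph (a + s, b) ≤ ph (a' + s', b) ≤ ph (a', b) + ε ≤ ph (a, b) + ε` with `a' ∈ {a, a - 1}`, `s' ∈ {s, s + 1, s + 2}`, `s'`
even, `a' + d` even. Right side: `ph (a, b - s) ≤ ph (a, b - s') = ph (a + s', b)`, `s'` even. -/
def DX7_stmt : Prop :=
  ∀ ε : ℝ, 0 < ε → ∃ δ : ℝ, 0 < δ ∧ ∃ L : ℤ, 2 ≤ L ∧ ∀ a b d e s : ℤ, L ≤ s →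
    (s : ℝ) ≤ δ * (b - a) → (s : ℝ) ≤ δ * (e - d) →
      ph true (a + s) b d e ≤ ph true a b d e + ε ∧ ph true a (b - s) d e ≤ ph true a b d e + ε ∧
      pv true a b (d + s) e ≤ pv true a b d e + ε ∧ pv true a b d (e - s) ≤ pv true a b d e + ε

/-- DUP. Duality: `DP.Asm_HX`, `DP.Asm_RC`, `TSX.2`, `RLM` (measurability). -/
def DUP_stmt : Prop :=
  ∀ a b d e : ℤ, a ≤ b → d ≤ e → ph true a b d e + pv true a b d e = 1

/-- DX8. The crossing of the rectangle and of a slightly smaller one: `F ⊆ F₁`, `G ⊆ F₁`,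
`F₁ = hcross (a + s) (b - s) d e`; `P (F₁) - P (F)` by DX7 (left and right side), `P (F₁) - P (G)` is a difference
of `pv` by `DUP` and small by DX7. -/
def DX8_stmt : Prop :=
  ∀ ε : ℝ, 0 < ε → ∃ δ : ℝ, 0 < δ ∧ ∃ L : ℤ, 2 ≤ L ∧ ∀ a b d e s : ℤ, L ≤ s →
    (s : ℝ) ≤ δ * (b - a) → (s : ℝ) ≤ δ * (e - d) →
      Pr ((Ev fun c => hcross c true a b d e) \ (Ev fun c => hcross c true (a + s) (b - s) (d + s) (e - s))) +
      Pr ((Ev fun c => hcross c true (a + s) (b - s) (d + s) (e - s)) \ (Ev fun c => hcross c true a b d e))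
        ≤ ε

/-! ## The spectral sample -/

/-- DX9. Bessel: `F` depends on the coins in `Λ`, `G` on the coins in `Λ \ U`. From `UJ1`, `UJ2`:
`4 P (F Δ G) = ∫ (pmf F - pmf G) ^ 2 = ∑ T ⊆ Λ, (fh F T - fh G T) ^ 2` and `fh G T = 0` if `T` meets `U`. -/
def DX9_stmt : Prop :=
  ∀ (F G : Set (V → Bool)) (Λ : Finset V) (U : Set V), DP.Dep F (Λ : Set V) →
    DP.Dep G {v | v ∈ Λ ∧ v ∉ U} →
      PSF F Λ (fun X => ∃ v ∈ X, v ∈ U) ≤ 4 * (Pr (F \ G) + Pr (G \ F))

/-- DXF. `D4_stmt` from DX8, DX9, `UJ4` with `s = 2 ^ (i - k) + 1`: the coins `br v` of the sites `v` of the smaller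
rectangle `rect (1 + s) (2 n - s) s (hh n - s)` are in `VV i` and in the bulk; `n ≤ hh n` (`2 / √3 ≥ 1`),
`hh n ≤ 2 n`. -/
def DXF_stmt : Prop := D4_stmt

end TP
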