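import Pool.Agent.helper2.SP.SpecTA

/-!
# Project sp, module TA1: basic facts on white crossing clusters
-/

namespace TP.TA

open DP MeasureTheory

theorem TA1_ext {c : V → Bool} {x : V} {m n : ℕ} {u z w : V} (h : Conn c false (ann x m n) u z)
    (ha : Adj z w) (hw : w ∈ ann x m n) (hc : c w = false) : Conn c false (ann x m n) u w :=
  DP.Con.tail h ha ⟨hw, hc⟩

theorem TA1 : TA1_stmt := by
  refine ⟨?_, ?_, ?_⟩
  · rintro c x m n K ⟨u, hu, ⟨u', hu', hc⟩, rfl⟩
    have hself : Conn c false (ann x m n) u u := DP.Con.refl (DP.Con.mem_left hc)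
    refine ⟨fun v hv => DP.Conn.mem_right hv, fun v hv => DP.Conn.colour_right hv, ?_,
      ⟨u, hself, hu⟩, ⟨u', hc, hu'⟩, ?_, ?_⟩
    · intro a ha b hb
      exact DP.Con.trans (DP.Con.symm (DP.Con.cluster ha)) (DP.Con.cluster hb)
    · rintro v ⟨hv, hvK, z, hz, hzv⟩
      by_contra hcv
      have hcv' : c v = false := by simpa using hcv
      exact hvK (TA1_ext hz hzv hv hcv')
    · intro hBC v hv w hw hcv hbr
      by_cases hvw : v = w
      · rw [hvw]; exact hw
      · exact TA1_ext hw (br_adj hbr.symm (Ne.symm hvw)) hv hcv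
  · rintro c x m n K K' ⟨u, hu, hc, rfl⟩ ⟨w, hw, hc', rfl⟩ ⟨z, hz, hz'⟩
    have h : Conn c false (ann x m n) u w := DP.Conn.trans hz (DP.Conn.symm hz')
    ext v
    exact ⟨fun h' => DP.Conn.trans (DP.Conn.symm h) h', fun h' => DP.Conn.trans h h'⟩
  · rintro c x m n K hK hcK hcon ⟨u, huK, hu⟩ ⟨u', huK', hu'⟩ hn
    have hsub : K ⊆ {w | w ∈ ann x m n ∧ c w = false} := fun v hv => ⟨hK hv, hcK v hv⟩
    refine ⟨u, hu, ⟨u', hu', DP.Con.mono hsub (hcon u huK u' huK')⟩, ?_⟩
    ext v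
    constructor
    · intro hv
      exact DP.Con.mono hsub (hcon u huK v hv)
    · intro hv
      refine DP.Con.induct hv (fun v => v ∈ K) huK ?_
      intro a b _ hb hab _ ha
      by_contra hbK
      have h1 := hn b ⟨hb.1, hbK, a, ha, hab⟩
      rw [hb.2] at h1
      exact Bool.false_ne_true h1

end TP.TA
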