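import Pool.Agent.helper61.SP.TBC

/-!
# Module TB1 of project sp: curves from separated spots to the standard spots
-/

namespace TP

open DP DP.Polar

theorem TB1_lift (x : V) (n S : ℕ) (y : ℕ → V) (hn : 1 ≤ n) (hS : 1 ≤ S)
    (hy : ∀ l < 6, y l ∈ bd x n) (hC : Cyc6 x n y)
    (hs : ∀ l < 6, ∀ l' < 6, l ≠ l' → S ≤ sd (y l) (y l')) :
    ∃ L : ℕ → ℤ, (∀ l < 6, 0 ≤ L l ∧ L l ≤ 16 * n ∧ ∃ k : ℤ, L l = pos x n (y l) + 8 * n * k) ∧
      ∀ l l', l < l' → l' < 6 → (S : ℤ) ≤ L l' - L l ∧ L l' - L l ≤ 8 * n - S := by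
  obtain ⟨M, hM, hM1, hM2⟩ := hC
  obtain ⟨c1, -, -⟩ := CG1 x n hn
  obtain ⟨k0, hk0⟩ := hM 0 (by norm_num)
  have hmono : ∀ l l', l < l' → l' < 6 → M l < M l' := by
    intro l l' h h'
    have g0 := hM1 0 (by norm_num)
    have g1 := hM1 1 (by norm_num)
    have g2 := hM1 2 (by norm_num)
    have g3 := hM1 3 (by norm_num)
    have g4 := hM1 4 (by norm_num)
    norm_num at g0 g1 g2 g3 g4
    interval_cases l' <;> interval_cases l <;> linarith
  have hlast : ∀ l < 6, M l ≤ M 5 := by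
    intro l hl
    rcases Nat.lt_or_ge l 5 with h | h
    · exact (hmono l 5 h (by norm_num)).le
    · rw [show l = 5 by omega]
  have hfirst : ∀ l < 6, M 0 ≤ M l := by
    intro l hl
    rcases Nat.eq_zero_or_pos l with h | h
    · rw [h]
    · exact (hmono 0 l h hl).le
  have h0 := c1 (y 0) (hy 0 (by norm_num))
  refine ⟨fun l => M l - 8 * n * k0, ?_, ?_⟩
  · intro l hl
    have h1 := hlast l hl
    have h2 := hfirst l hl
    refine ⟨by simp only; linarith, by simp only; linarith, ?_⟩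
    obtain ⟨k, hk⟩ := hM l hl
    exact ⟨k - k0, by simp only; rw [hk]; ring⟩
  · intro l l' h h'
    have hl : l < 6 := h.trans h'
    have h1 := hmono l l' h h'
    have h2 := hlast l' h'
    have h3 := hfirst l hl
    obtain ⟨g1, g2, -⟩ := CG2 x n hn (y l) (hy l hl) (y l') (hy l' h')
    have g3 : (S : ℤ) ≤ sd (y l) (y l') := by exact_mod_cast hs l hl l' h' (by omega)
    have e1 := c1 (y l) (hy l hl)
    have e2 := c1 (y l') (hy l' h')
    obtain ⟨k, hk⟩ := hM l hl
    obtain ⟨k', hk'⟩ := hM l' h'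
    simp only
    set p := pos x n (y l)
    set p' := pos x n (y l')
    have hd : M l' - M l = p' - p + 8 * n * (k' - k) := by rw [hk, hk']; ring
    have hn' : (1 : ℤ) ≤ n := by exact_mod_cast hn
    have hr : M l' - 8 * n * k0 - (M l - 8 * n * k0) = M l' - M l := by ring
    rw [hr]
    have h4 : 0 < M l' - M l := by linarith
    have h5 : M l' - M l < 8 * n := by linarith
    have h6 : p' - p < 8 * n := by linarith
    have h7 : -(8 * (n : ℤ)) < p' - p := by linarith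
    have hk0 : k' - k = 0 ∨ k' - k = 1 := by
      have hlo : -1 < k' - k := by
        by_contra hc
        push Not at hc
        have : 8 * (n : ℤ) * (k' - k) ≤ 8 * n * (-1) := by
          apply mul_le_mul_of_nonneg_left hc; linarith
        linarith
      have hhi : k' - k < 2 := by
        by_contra hc
        push Not at hc
        have : 8 * (n : ℤ) * 2 ≤ 8 * n * (k' - k) := by
          apply mul_le_mul_of_nonneg_left hc; linarith
        linarith
      omega
    rcases hk0 with hk0 | hk0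
    · rw [hk0] at hd
      have e3 : |p - p'| = M l' - M l := by
        rw [abs_sub_comm, abs_of_pos (by linarith)]
        linarith
      rw [e3] at g1 g2
      constructor <;> linarith
    · rw [hk0] at hd
      have e3 : |p - p'| = 8 * n - (M l' - M l) := by
        rw [abs_of_pos (by linarith)]
        linarith
      rw [e3] at g1 g2
      constructor <;> linarith

theorem TB1 : TB1_stmt := by
  intro d e hde
  refine ⟨e + 12, 5 * 2 ^ (e + 17), e + 16, by omega, by omega, ?_⟩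
  intro s x i y hi hy hC hs
  obtain ⟨q, rfl⟩ : ∃ q, i = e + 12 + q := ⟨i - (e + 12), by omega⟩
  have hq4 : 4 ≤ q := by omega
  have hS : ∀ l < 6, ∀ l' < 6, l ≠ l' → 2 ^ (12 + q) ≤ sd (y l) (y l') := by
    intro l hl l' hl' hne
    refine le_trans ?_ (hs l hl l' hl' hne)
    exact Nat.pow_le_pow_right (by norm_num) (by omega)
  have hpow : 2 ^ (e + 12 + q) = 4096 * (2 ^ e * 2 ^ q) := by
    rw [pow_add, pow_add]; norm_num; ring
  have hpq : 2 ^ (12 + q) = 4096 * 2 ^ q := by rw [pow_add]; norm_num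
  obtain ⟨L, hL, hLL⟩ := TB1_lift x (2 ^ (e + 12 + q)) (2 ^ (12 + q)) y Nat.one_le_two_pow
    Nat.one_le_two_pow hy hC hS
  have he1 : 1 ≤ 2 ^ e := Nat.one_le_two_pow
  have hq1 : 16 ≤ 2 ^ q := by
    calc 16 = 2 ^ 4 := by norm_num
      _ ≤ 2 ^ q := Nat.pow_le_pow_right (by norm_num) hq4
  have hncast : ((2 ^ (e + 12 + q) : ℕ) : ℝ) = 4096 * ((2 : ℝ) ^ e * 2 ^ q) := by
    rw [hpow]; push_cast; rfl
  have hP1 : (1 : ℝ) ≤ 2 ^ e := by exact_mod_cast he1
  have hW16 : (16 : ℝ) ≤ 2 ^ q := by exact_mod_cast hq1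
  have hn0 : (0 : ℝ) < 4096 * ((2 : ℝ) ^ e * 2 ^ q) := by positivity
  have hn0' : (0 : ℝ) < ((2 ^ (e + 12 + q) : ℕ) : ℝ) := by rw [hncast]; exact hn0
  set n : ℝ := ((2 ^ (e + 12 + q) : ℕ) : ℝ) with hn
  have hΘΤ : ∀ l < 6, |TBC_ang l - (L l : ℝ) / n| ≤ 16 := by
    intro l hl
    obtain ⟨h1, h2, -⟩ := hL l hl
    have h1' : (0 : ℝ) ≤ L l := by exact_mod_cast h1
    have h2' : (L l : ℝ) ≤ 16 * n := by rw [hn]; exact_mod_cast h2
    have h3 : (L l : ℝ) / n ≤ 16 := by rw [div_le_iff₀ hn0']; exact h2'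
    have h4 : 0 ≤ (L l : ℝ) / n := div_nonneg h1' hn0'.le
    have h5 := TBC_ang_bd l hl
    rw [abs_le]
    constructor <;> linarith
  have hSep : ∀ l < 6, ∀ l' < 6, l' ≠ l →
      Sep (1 / 2 ^ e) ((L l : ℝ) / n) (TBC_ang l) ((L l' : ℝ) / n) (TBC_ang l') := by
    have hSn : ((2 ^ (12 + q) : ℕ) : ℝ) / n = 1 / 2 ^ e := by
      rw [hpq, hncast]; push_cast; field_simp
    have hP2 : (1 : ℝ) / 2 ^ e ≤ 1 := by
      rw [div_le_one (by positivity)]; exact hP1
    have conv : ∀ a b, a < b → b < 6 →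
        1 / 2 ^ e ≤ (L b : ℝ) / n - (L a : ℝ) / n ∧ (L b : ℝ) / n - (L a : ℝ) / n ≤ 8 - 1 / 2 ^ e ∧
        1 / 2 ^ e ≤ TBC_ang b - TBC_ang a ∧ TBC_ang b - TBC_ang a ≤ 8 - 1 / 2 ^ e := by
      intro a b hab hb
      obtain ⟨g1, g2⟩ := hLL a b hab hb
      have g1' : ((2 ^ (12 + q) : ℕ) : ℝ) ≤ (L b : ℝ) - L a := by exact_mod_cast g1
      have g2' : (L b : ℝ) - L a ≤ 8 * n - ((2 ^ (12 + q) : ℕ) : ℝ) := by
        rw [hn]; exact_mod_cast g2
      obtain ⟨t1, t2⟩ := TBC_ang_lt a b hab hb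
      rw [← sub_div]
      refine ⟨?_, ?_, by linarith, by linarith⟩
      · rw [← hSn]
        exact div_le_div_of_nonneg_right g1' hn0'.le
      · rw [← hSn]
        have := div_le_div_of_nonneg_right g2' hn0'.le
        refine this.trans (le_of_eq ?_)
        field_simp
    intro l hl l' hl' hne
    rcases lt_or_gt_of_ne hne with h | h
    · left
      exact conv l' l h hl
    · right
      exact conv l l' h hl'
  refine TBC_core s x e e q (e + 12 - 2) hq4 (by omega) y (fun l => (L l : ℝ) / n) ?_ hΘΤ hSep ?_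
  · intro l hl
    obtain ⟨-, -, k, hk⟩ := hL l hl
    have h1 := vec_pos x (2 ^ (e + 12 + q)) Nat.one_le_two_pow (y l) (hy l hl) k
    rw [h1]
    congr 2
    have h2 : (L l : ℝ) = pos x (2 ^ (e + 12 + q)) (y l) + 8 * n * k := by
      rw [hn]
      exact_mod_cast hk
    rw [h2]
    rw [← hn]
    field_simp
  · intro l hl l' hl' hne τ h0 h1
    have h2 := cond_D s n (1 / 2 ^ e) ((L l : ℝ) / n) (TBC_ang l) ((L l' : ℝ) / n) (TBC_ang l') 0 τ
      hn0' (by positivity) (hΘΤ l' hl') le_rfl (by norm_num) h0 h1 (hSep l hl l' hl' hne)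
    rw [Fc_zero] at h2
    have h3 : n * (1 / 2 ^ e) / 75 = 4096 * 2 ^ q / 75 := by
      rw [hncast]; field_simp
    rw [h3] at h2
    refine le_trans ?_ h2
    have h4 : e + 12 + q - (e + 12 - 2) = q + 2 := by omega
    rw [h4]
    push_cast
    rw [pow_add]
    linarith

end TP
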