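import Pool.Agent.helper61.SP.TBC

/-!
# Module TB2 of project sp: radial curves from the standard spots to the next standard spots
-/

namespace TP

open DP DP.Polar

theorem TB2 : TB2_stmt := by
  refine ⟨0 + 12, 5 * 2 ^ (0 + 17), 16, by norm_num, by norm_num, ?_⟩
  intro s x i hi
  obtain ⟨q, rfl⟩ : ∃ q, i = 0 + 12 + q := ⟨i - 12, by omega⟩
  have hq4 : 4 ≤ q := by omega
  have hpow : 2 ^ (0 + 12 + q) = 4096 * 2 ^ q := by
    rw [pow_add]; norm_num
  have hq1 : 16 ≤ 2 ^ q := by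
    calc 16 = 2 ^ 4 := by norm_num
      _ ≤ 2 ^ q := Nat.pow_le_pow_right (by norm_num) hq4
  have hW16 : (16 : ℝ) ≤ 2 ^ q := by exact_mod_cast hq1
  have hncast : ((2 ^ (0 + 12 + q) : ℕ) : ℝ) = 4096 * (2 : ℝ) ^ q := by
    rw [hpow]; push_cast; rfl
  refine TBC_core s x 0 3 q 6 hq4 (by omega) (zp6 x (2 ^ (0 + 12 + q))) TBC_ang ?_ ?_ ?_ ?_
  · intro l hl
    exact TBC_vec x _ (by rw [hpow]; omega) l hl
  · intro l hl
    rw [sub_self, abs_zero]
    norm_num
  · intro l hl l' hl' hne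
    rw [pow_zero, div_one]
    rcases lt_or_gt_of_ne hne with h | h
    · left
      obtain ⟨t1, t2⟩ := TBC_ang_lt l' l h hl
      exact ⟨t1, by linarith, t1, by linarith⟩
    · right
      obtain ⟨t1, t2⟩ := TBC_ang_lt l l' h hl'
      exact ⟨t1, by linarith, t1, by linarith⟩
  · intro l hl l' hl' hne τ h0 h1
    have h2 := TBC_cond_E s ((2 ^ (0 + 12 + q) : ℕ) : ℝ) (TBC_ang l) (TBC_ang l') τ
      (by rw [hncast]; positivity) h0 h1 (TBC_ang_mod l' l hl' hl hne.symm)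
    refine le_trans ?_ h2
    have h4 : 0 + 12 + q - 6 = q + 6 := by omega
    rw [h4, hncast]
    push_cast
    rw [pow_add]
    linarith

end TP
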