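import Pool.Agent.helper96.SP.SpecTB
import Pool.Agent.helper98.DP.RTBCore
import Pool.Agent.helper33.DP.CG

/-!
# Curves from six spots to the standard spots (core of modules TB1, TB2 of project sp)
-/

namespace TP

open DP DP.Polar

/-- Angles of the standard spots. -/
noncomputable def TBC_ang (l : ℕ) : ℝ :=
  if l = 0 then 1 / 2 else if l = 1 then 3 / 2 else if l = 2 then 3 else if l = 3 then 9 / 2
    else if l = 4 then 11 / 2 else 7

theorem TBC_E0 : E (1 / 2) = (1, -(1 / 2)) := by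
  rcases E_cases (1 / 2) 0 (by norm_num) (by norm_num) with ⟨h2, h⟩ | ⟨h2, h4, h⟩ | ⟨h4, h6, h⟩ | ⟨h6, h⟩
  · norm_num at h ⊢
    exact h
  all_goals norm_num at *

theorem TBC_E1 : E (3 / 2) = (1, 1 / 2) := by
  rcases E_cases (3 / 2) 0 (by norm_num) (by norm_num) with ⟨h2, h⟩ | ⟨h2, h4, h⟩ | ⟨h4, h6, h⟩ | ⟨h6, h⟩
  · norm_num at h ⊢
    exact h
  all_goals norm_num at *

theorem TBC_E2 : E 3 = (0, 1) := by
  rcases E_cases 3 0 (by norm_num) (by norm_num) with ⟨h2, h⟩ | ⟨h2, h4, h⟩ | ⟨h4, h6, h⟩ | ⟨h6, h⟩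
  · norm_num at h2
  · norm_num at h ⊢
    exact h
  all_goals norm_num at *

theorem TBC_E3 : E (9 / 2) = (-1, 1 / 2) := by
  rcases E_cases (9 / 2) 0 (by norm_num) (by norm_num) with ⟨h2, h⟩ | ⟨h2, h4, h⟩ | ⟨h4, h6, h⟩ | ⟨h6, h⟩
  · norm_num at h2
  · norm_num at h4
  · norm_num at h ⊢
    exact h
  all_goals norm_num at *

theorem TBC_E4 : E (11 / 2) = (-1, -(1 / 2)) := by
  rcases E_cases (11 / 2) 0 (by norm_num) (by norm_num) with ⟨h2, h⟩ | ⟨h2, h4, h⟩ | ⟨h4, h6, h⟩ | ⟨h6, h⟩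
  · norm_num at h2
  · norm_num at h4
  · norm_num at h ⊢
    exact h
  all_goals norm_num at *

theorem TBC_E5 : E 7 = (0, -1) := by
  rcases E_cases 7 0 (by norm_num) (by norm_num) with ⟨h2, h⟩ | ⟨h2, h4, h⟩ | ⟨h4, h6, h⟩ | ⟨h6, h⟩
  · norm_num at h2
  · norm_num at h4
  · norm_num at h6
  · norm_num at h ⊢
    exact h

theorem TBC_vec (x : V) (n : ℕ) (hn : 2 ∣ n) (l : ℕ) (hl : l < 6) :
    vec x (zp6 x n l) = (n : ℝ) • E (TBC_ang l) := by
  obtain ⟨m, rfl⟩ := hn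
  have hm : 2 * m / 2 = m := by omega
  unfold zp6 vec TBC_ang
  interval_cases l
  · simp only [if_true, hm]
    rw [TBC_E0]
    ext <;> simp
    ring
  · simp only [if_true, hm, one_ne_zero, if_false]
    rw [TBC_E1]
    ext <;> simp
    ring
  · norm_num [hm]
    rw [TBC_E2]
    ext <;> simp
  · norm_num [hm]
    rw [TBC_E3]
    ext <;> simp
    ring
  · norm_num [hm]
    rw [TBC_E4]
    ext <;> simp
    ring
  · norm_num [hm]
    rw [TBC_E5]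
    ext <;> simp

theorem TBC_ang_bd (l : ℕ) (hl : l < 6) : 1 / 2 ≤ TBC_ang l ∧ TBC_ang l ≤ 7 := by
  unfold TBC_ang
  interval_cases l <;> norm_num

theorem TBC_ang_lt (l l' : ℕ) (hl : l < l') (hl' : l' < 6) :
    1 ≤ TBC_ang l' - TBC_ang l ∧ TBC_ang l' - TBC_ang l ≤ 13 / 2 := by
  unfold TBC_ang
  interval_cases l' <;> interval_cases l <;> norm_num

theorem TBC_ang_mod (l l' : ℕ) (hl : l < 6) (hl' : l' < 6) (h : l' ≠ l) (m : ℤ) :
    1 ≤ |TBC_ang l - TBC_ang l' - 8 * m| := by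
  rcases lt_or_gt_of_ne h with h | h
  · have h1 := TBC_ang_lt l' l h hl
    exact sep_mod 1 _ (by norm_num) h1.1 (by linarith [h1.2]) m
  · have h1 := TBC_ang_lt l l' h hl'
    have h3 := sep_mod 1 (TBC_ang l' - TBC_ang l) (by norm_num) h1.1 (by linarith [h1.2]) (-m)
    push_cast at h3
    have e2 : TBC_ang l' - TBC_ang l - 8 * (-(m : ℝ)) = -(TBC_ang l - TBC_ang l' - 8 * m) := by ring
    rw [e2, abs_neg] at h3
    exact h3

/-- The curve avoids the other standard points (angles at distance at least one). -/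
theorem TBC_cond_C (s : Bool) (n N W a b b' τ : ℝ) (q v : ℝ × ℝ) (hn : 0 < n) (hW : 16 ≤ W)
    (hWn : 256 * W ≤ n) (h0 : 0 ≤ τ) (h1 : τ ≤ 5 / 4)
    (hN : N = if s = true then 2 * n else n / 2)
    (hbb : ∀ m : ℤ, 1 ≤ |b - b' - 8 * m|)
    (hq : ‖q - DP.Polar.Fc s n a b τ‖ ≤ 1 / 2) (hv : ‖q - v‖ ≤ 5 * W) : N / 8 < ‖N • E b' - v‖ := by
  by_contra hcon
  push Not at hcon
  have hN0 : 0 < N := by rw [hN]; split_ifs <;> linarith
  have hN1 : n / 2 ≤ N := by rw [hN]; split_ifs <;> linarith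
  have hr := rho_bd s τ h0 h1
  have h2 : ‖DP.Polar.Fc s n a b τ - v‖ ≤ 5 * W + 1 / 2 := by
    have := norm_sub_le_norm_sub_add_norm_sub (DP.Polar.Fc s n a b τ) q v
    rw [norm_sub_rev (DP.Polar.Fc s n a b τ) q] at this
    linarith
  have h3 : ‖DP.Polar.Fc s n a b τ - N • E b'‖ ≤ N / 8 + 5 * W + 1 / 2 := by
    have := norm_sub_le_norm_sub_add_norm_sub (DP.Polar.Fc s n a b τ) v (N • E b')
    rw [norm_sub_rev v] at this
    linarith
  have h4 : |n * rho s τ - N| ≤ N / 8 + 5 * W + 1 / 2 := by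
    have := lower_rad (n * rho s τ) N (ang a b τ) b' (by nlinarith [hr.1]) hN0.le
    unfold DP.Polar.Fc at h3
    linarith
  have h5 := late s n N W a b τ hn h0 hN hWn hW h4
  have h6 := lower_ang (n * rho s τ) N (ang a b τ) b' hN0.le
  have h7 := E_sep b b' 1 hbb
  unfold DP.Polar.Fc at h3
  rw [h5] at h3 h6
  have h8 : N * (1 / 2) ≤ N * ‖E b - E b'‖ := mul_le_mul_of_nonneg_left (by linarith) hN0.le
  linarith

/-- Radial curves stay away from the other starting points. -/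
theorem TBC_cond_E (s : Bool) (n b b' τ : ℝ) (hn : 0 < n) (h0 : 0 ≤ τ) (h1 : τ ≤ 5 / 4)
    (hbb : ∀ m : ℤ, 1 ≤ |b' - b - 8 * m|) : n / 4 ≤ ‖n • E b - DP.Polar.Fc s n b' b' τ‖ := by
  have hr := rho_bd s τ h0 h1
  have ha : ang b' b' τ = b' := by unfold ang; ring
  unfold DP.Polar.Fc
  rw [ha]
  have h2 := lower_rad (n * rho s τ) n b' b (by nlinarith [hr.1]) hn.le
  have h3 := lower_ang (n * rho s τ) n b' b hn.le
  have h7 := E_sep b' b 1 hbb
  have h8 : n * (1 / 2) ≤ n * ‖E b' - E b‖ := mul_le_mul_of_nonneg_left (by linarith) hn.le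
  rw [norm_sub_rev]
  linarith

/-- Common part of TB1 and TB2. -/
theorem TBC_core (s : Bool) (x : V) (e e' q η : ℕ) (hq4 : 4 ≤ q) (he' : e' ≤ e + 3)
    (y : ℕ → V) (Θ : ℕ → ℝ)
    (hΘv : ∀ l < 6, vec x (y l) = ((2 ^ (e + 12 + q) : ℕ) : ℝ) • E (Θ l))
    (hΘΤ : ∀ l < 6, |TBC_ang l - Θ l| ≤ 16)
    (hSep : ∀ l < 6, ∀ l' < 6, l' ≠ l →
      Sep (1 / 2 ^ e) (Θ l) (TBC_ang l) (Θ l') (TBC_ang l'))
    (hbig : ∀ l < 6, ∀ l' < 6, l' ≠ l → ∀ τ : ℝ, 0 ≤ τ → τ ≤ 5 / 4 →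
      3 * ((2 ^ (e + 12 + q - η) : ℕ) : ℝ) + 7 * 2 ^ q ≤
        ‖((2 ^ (e + 12 + q) : ℕ) : ℝ) • E (Θ l) -
          DP.Polar.Fc s ((2 ^ (e + 12 + q) : ℕ) : ℝ) (Θ l') (TBC_ang l') τ‖) :
    ∃ f : ℕ → ℕ → V, Cur s x (e + 12 + q) e' η (e + 12) (5 * 2 ^ (e + 17)) y f := by
  have eih : e + 12 + q - (e + 12) = q := by omega
  have hpow : 2 ^ (e + 12 + q) = 4096 * (2 ^ e * 2 ^ q) := by
    rw [pow_add, pow_add]; norm_num; ring
  have he1 : 1 ≤ 2 ^ e := Nat.one_le_two_pow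
  have hq1 : 16 ≤ 2 ^ q := by
    calc 16 = 2 ^ 4 := by norm_num
      _ ≤ 2 ^ q := Nat.pow_le_pow_right (by norm_num) hq4
  have hA1 : 2 ^ q ≤ 2 ^ e * 2 ^ q := Nat.le_mul_of_pos_left _ (by omega)
  have hncast0 : ((2 ^ (e + 12 + q) : ℕ) : ℝ) = 4096 * ((2 : ℝ) ^ e * 2 ^ q) := by
    rw [hpow]; push_cast; rfl
  -- real quantities
  set W : ℝ := 2 ^ q with hW
  set P : ℝ := 2 ^ e with hP
  set n : ℝ := 4096 * (P * W) with hn
  rw [hncast0] at hΘv hbig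
  have hncast : ((2 ^ (e + 12 + q) : ℕ) : ℝ) = n := hncast0
  have hW16 : 16 ≤ W := by rw [hW]; exact_mod_cast hq1
  have hP1 : 1 ≤ P := by rw [hP]; exact_mod_cast he1
  have hPW : W ≤ P * W := by nlinarith
  have hn0 : 0 < n := by rw [hn]; nlinarith
  have hWn : 256 * W ≤ n := by rw [hn]; nlinarith
  have hWn' : 4096 * W ≤ n := by rw [hn]; nlinarith
  set κ : ℝ := 1 / (524288 * P) with hκ
  have hκ0 : 0 < κ := by rw [hκ]; positivity
  have hκn : n * κ = W / 128 := by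
    rw [hn, hκ]; field_simp; ring
  have hTκ : κ * ((5 * 2 ^ (e + 17) : ℕ) : ℝ) = 5 / 4 := by
    have : ((5 * 2 ^ (e + 17) : ℕ) : ℝ) = 655360 * P := by
      push_cast; rw [pow_add]; norm_num; ring
    rw [this, hκ]; field_simp; norm_num
  have hτ : ∀ t : ℕ, t ≤ 5 * 2 ^ (e + 17) → 0 ≤ κ * t ∧ κ * t ≤ 5 / 4 := by
    intro t ht
    refine ⟨by positivity, ?_⟩
    rw [← hTκ]
    apply mul_le_mul_of_nonneg_left _ hκ0.le
    exact_mod_cast ht
  have hnx : ((nx s (2 ^ (e + 12 + q)) : ℕ) : ℝ) = if s = true then 2 * n else n / 2 := by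
    unfold nx
    split_ifs
    · push_cast; rw [← hncast]; push_cast; rfl
    · rw [Nat.cast_div (by
        rw [hpow]
        exact ⟨2048 * (2 ^ e * 2 ^ q), by ring⟩) (by norm_num)]
      rw [hncast]; norm_num
  have hnx2 : 2 ∣ nx s (2 ^ (e + 12 + q)) := by
    unfold nx
    rw [hpow]
    split_ifs <;> omega
  have hz : ∀ l < 6, vec x (zp6 x (nx s (2 ^ (e + 12 + q))) l) =
      ((nx s (2 ^ (e + 12 + q)) : ℕ) : ℝ) • E (TBC_ang l) := fun l hl =>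
    TBC_vec x _ hnx2 l hl
  -- the estimate for the norm of a rounded point
  have hrd : ∀ (l t : ℕ), ‖vec x (rd x (DP.Polar.Fc s n (Θ l) (TBC_ang l) (κ * t))) -
      DP.Polar.Fc s n (Θ l) (TBC_ang l) (κ * t)‖ ≤ 1 / 2 := fun l t => vec_rd x _
  refine ⟨fun l t => rd x (DP.Polar.Fc s n (Θ l) (TBC_ang l) (κ * t)), ?_⟩
  refine ⟨?_, ?_, ?_, ?_, ?_, ?_, ?_, ?_⟩
  · -- start
    intro l hl
    rw [Nat.cast_zero, mul_zero, Fc_zero, ← hΘv l hl]
    exact rd_vec x (y l) _ rfl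
  · -- steps
    intro l hl t ht
    rw [eih]
    have h1 := hτ (t + 1) ht
    have h2 := Fc_step s n (Θ l) (TBC_ang l) (κ * t) (κ * ((t + 1 : ℕ) : ℝ)) hn0 h1.1 h1.2
      (hΘΤ l hl)
    have h3 : |κ * (t : ℝ) - κ * ((t + 1 : ℕ) : ℝ)| = κ := by
      push_cast
      have : κ * (t : ℝ) - κ * ((t : ℝ) + 1) = -κ := by ring
      rw [this, abs_neg, abs_of_pos hκ0]
    rw [h3] at h2
    have h4 : 73 * n * κ = 73 * W / 128 := by
      rw [mul_assoc, hκn]; ring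
    rw [h4] at h2
    have h5 := hrd l t
    have h6 := hrd l (t + 1)
    have h7 : ((sd (rd x (DP.Polar.Fc s n (Θ l) (TBC_ang l) (κ * t)))
        (rd x (DP.Polar.Fc s n (Θ l) (TBC_ang l) (κ * ((t + 1 : ℕ) : ℝ)))) : ℕ) : ℝ) ≤
        ((2 ^ q : ℕ) : ℝ) := by
      rw [sd_vec x]
      push_cast
      rw [← hW]
      have h8 := norm_sub_le_norm_sub_add_norm_sub (vec x (rd x (DP.Polar.Fc s n (Θ l) (TBC_ang l) (κ * t))))
        (DP.Polar.Fc s n (Θ l) (TBC_ang l) (κ * t))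
        (vec x (rd x (DP.Polar.Fc s n (Θ l) (TBC_ang l) (κ * ((t + 1 : ℕ) : ℝ)))))
      have h9 := norm_sub_le_norm_sub_add_norm_sub (DP.Polar.Fc s n (Θ l) (TBC_ang l) (κ * t))
        (DP.Polar.Fc s n (Θ l) (TBC_ang l) (κ * ((t + 1 : ℕ) : ℝ)))
        (vec x (rd x (DP.Polar.Fc s n (Θ l) (TBC_ang l) (κ * ((t + 1 : ℕ) : ℝ)))))
      rw [norm_sub_rev (DP.Polar.Fc s n (Θ l) (TBC_ang l) (κ * ((t + 1 : ℕ) : ℝ)))
        (vec x (rd x (DP.Polar.Fc s n (Θ l) (TBC_ang l) (κ * ((t + 1 : ℕ) : ℝ)))))] at h9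
      push_cast at *
      linarith
    exact_mod_cast h7
  · -- end
    intro l hl
    rw [eih]
    have h5 := hrd l (5 * 2 ^ (e + 17))
    rw [hTκ] at h5
    have h6 := Fc_norm s n (Θ l) (TBC_ang l) (5 / 4) hn0 (by norm_num) le_rfl
    have h7 : ((sd x (rd x (DP.Polar.Fc s n (Θ l) (TBC_ang l) (5 / 4))) : ℕ) : ℝ) =
        ‖vec x (rd x (DP.Polar.Fc s n (Θ l) (TBC_ang l) (5 / 4)))‖ := sd_vec0 _ _
    have h8 := abs_norm_sub_norm_le (vec x (rd x (DP.Polar.Fc s n (Θ l) (TBC_ang l) (5 / 4))))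
      (DP.Polar.Fc s n (Θ l) (TBC_ang l) (5 / 4))
    rw [h6, ← h7, abs_le] at h8
    have hfl : rd x (DP.Polar.Fc s n (Θ l) (TBC_ang l) (κ * ((5 * 2 ^ (e + 17) : ℕ) : ℝ))) =
        rd x (DP.Polar.Fc s n (Θ l) (TBC_ang l) (5 / 4)) := by rw [hTκ]
    rw [hfl]
    set z : V := rd x (DP.Polar.Fc s n (Θ l) (TBC_ang l) (5 / 4)) with hzd
    unfold rho at h8
    by_cases hs' : s = true
    · rw [if_pos hs'] at hnx h8 ⊢
      have : ((nx s (2 ^ (e + 12 + q)) + 4 * 2 ^ q : ℕ) : ℝ) ≤ ((sd x z : ℕ) : ℝ) := by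
        push_cast
        rw [hnx, ← hW]
        linarith [h8.1, h8.2]
      exact_mod_cast this
    · rw [if_neg hs'] at hnx h8 ⊢
      have : ((sd x z + 4 * 2 ^ q : ℕ) : ℝ) ≤ ((nx s (2 ^ (e + 12 + q)) : ℕ) : ℝ) := by
        push_cast
        rw [hnx, ← hW]
        linarith [h8.1, h8.2]
      exact_mod_cast this
  · -- near
    intro l hl t ht v hv hHS
    rw [eih] at hv
    obtain ⟨h0, h1⟩ := hτ t ht
    have hq := hrd l t
    have hv' : ‖vec x (rd x (DP.Polar.Fc s n (Θ l) (TBC_ang l) (κ * t))) - vec x v‖ ≤ 5 * W := by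
      rw [← sd_vec x, hW]
      exact_mod_cast hv
    have h2 : if s = true then ‖vec x v‖ ≤ n else n ≤ ‖vec x v‖ := by
      rw [← sd_vec0, ← hncast]
      unfold HS at hHS
      split_ifs at hHS ⊢
      · exact_mod_cast hHS
      · exact_mod_cast hHS
    have h3 := cond_A s n W (Θ l) (TBC_ang l) (κ * t) _ _ _ hn0 hW16 h0 h1 (hΘΤ l hl) (hΘv l hl)
      hq hv' h2
    rw [← sd_vec x] at h3
    have h4 : sd (y l) v ≤ 512 * 2 ^ q := by
      rw [hW] at h3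
      exact_mod_cast h3
    refine h4.trans ?_
    calc 512 * 2 ^ q = 2 ^ (9 + q) := by rw [pow_add]; norm_num
      _ ≤ 2 ^ (e + 12 + q - e') := Nat.pow_le_pow_right (by norm_num) (by omega)
  · -- std
    intro l hl t ht v hv hbd
    rw [eih] at hv
    obtain ⟨h0, h1⟩ := hτ t ht
    have hq := hrd l t
    have hv' : ‖vec x (rd x (DP.Polar.Fc s n (Θ l) (TBC_ang l) (κ * t))) - vec x v‖ ≤ 5 * W := by
      rw [← sd_vec x, hW]
      exact_mod_cast hv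
    have hbd' : sd x v = nx s (2 ^ (e + 12 + q)) := hbd
    have h2 : ‖vec x v‖ = ((nx s (2 ^ (e + 12 + q)) : ℕ) : ℝ) := by
      rw [← sd_vec0, hbd']
    have h3 := cond_B s n _ W (Θ l) (TBC_ang l) (κ * t) _ _ hn0 hW16 hWn h0 h1 hnx hq hv' h2
    rw [← hz l hl, ← sd_vec x] at h3
    have h5 : sd (zp6 x (nx s (2 ^ (e + 12 + q))) l) v ≤ 11 * 2 ^ q := by
      rw [hW] at h3
      exact_mod_cast h3
    refine h5.trans ?_
    unfold nx
    rw [hpow]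
    split_ifs <;> omega
  · -- oth
    intro l hl l' hl' hne t ht v hv
    rw [eih] at hv
    obtain ⟨h0, h1⟩ := hτ t ht
    have hq := hrd l t
    have hv' : ‖vec x (rd x (DP.Polar.Fc s n (Θ l) (TBC_ang l) (κ * t))) - vec x v‖ ≤ 5 * W := by
      rw [← sd_vec x, hW]
      exact_mod_cast hv
    have h3 := TBC_cond_C s n _ W (Θ l) (TBC_ang l) (TBC_ang l') (κ * t) _ (vec x v) hn0 hW16 hWn
      h0 h1 hnx (TBC_ang_mod l l' hl hl' hne) hq hv'
    rw [← hz l' hl', ← sd_vec x] at h3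
    have h5 : ((nx s (2 ^ (e + 12 + q)) / 8 : ℕ) : ℝ) ≤
        ((nx s (2 ^ (e + 12 + q)) : ℕ) : ℝ) / 8 := by
      have := @Nat.cast_div_le ℝ _ _ _ (nx s (2 ^ (e + 12 + q))) 8
      exact_mod_cast this
    have h6 := lt_of_le_of_lt h5 h3
    exact_mod_cast h6
  · -- sep
    intro l hl l' hl' hne t ht t' ht'
    rw [eih]
    obtain ⟨h0, h1⟩ := hτ t ht
    obtain ⟨h0', h1'⟩ := hτ t' ht'
    have hq := hrd l t
    have hq' := hrd l' t'
    have h2 := cond_D s n (1 / P) (Θ l) (TBC_ang l) (Θ l') (TBC_ang l') (κ * t) (κ * t') hn0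
      (by positivity) (hΘΤ l' hl') h0 h1 h0' h1' (hSep l hl l' hl' hne)
    have h3 : n * (1 / P) / 75 = 4096 * W / 75 := by
      rw [hn]; field_simp
    rw [h3] at h2
    have h4 : ((10 * 2 ^ q : ℕ) : ℝ) < ((sd (rd x (DP.Polar.Fc s n (Θ l) (TBC_ang l) (κ * t)))
        (rd x (DP.Polar.Fc s n (Θ l') (TBC_ang l') (κ * t'))) : ℕ) : ℝ) := by
      rw [sd_vec x]
      push_cast
      rw [← hW]
      have h8 := norm_sub_le_norm_sub_add_norm_sub (DP.Polar.Fc s n (Θ l) (TBC_ang l) (κ * t))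
        (vec x (rd x (DP.Polar.Fc s n (Θ l) (TBC_ang l) (κ * t)))) (DP.Polar.Fc s n (Θ l') (TBC_ang l') (κ * t'))
      have h9 := norm_sub_le_norm_sub_add_norm_sub
        (vec x (rd x (DP.Polar.Fc s n (Θ l) (TBC_ang l) (κ * t))))
        (vec x (rd x (DP.Polar.Fc s n (Θ l') (TBC_ang l') (κ * t')))) (DP.Polar.Fc s n (Θ l') (TBC_ang l') (κ * t'))
      rw [norm_sub_rev (DP.Polar.Fc s n (Θ l) (TBC_ang l) (κ * t))
        (vec x (rd x (DP.Polar.Fc s n (Θ l) (TBC_ang l) (κ * t))))] at h8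
      linarith
    exact_mod_cast h4
  · -- big
    intro l hl l' hl' hne t ht
    rw [eih]
    obtain ⟨h0, h1⟩ := hτ t ht
    have hq := hrd l' t
    have h2 := hbig l hl l' hl' hne (κ * t) h0 h1
    have h4 : ((3 * 2 ^ (e + 12 + q - η) + 6 * 2 ^ q : ℕ) : ℝ) ≤
        ((sd (y l) (rd x (DP.Polar.Fc s n (Θ l') (TBC_ang l') (κ * t))) : ℕ) : ℝ) := by
      rw [sd_vec x, hΘv l hl]
      have h8 := norm_sub_le_norm_sub_add_norm_sub (n • E (Θ l))
        (vec x (rd x (DP.Polar.Fc s n (Θ l') (TBC_ang l') (κ * t)))) (DP.Polar.Fc s n (Θ l') (TBC_ang l') (κ * t))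
      push_cast at h2 ⊢
      rw [← hW]
      linarith
    exact_mod_cast h4

end TP
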